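import Pool.Agent.H9.PF.Interface

/-!
# Combinatorics of `W` (the well-order of type `ω₁`)
-/

open Set

namespace H9.PF

instance : Nonempty W := (exists_bound (s := ∅) countable_empty).nonempty

/-- unbounded subsets of `W` (equivalently, uncountable subsets) -/
def Unb (U : Set W) : Prop := ∀ γ, ∃ ξ ∈ U, γ < ξ

theorem Unb.not_countable {U : Set W} (h : Unb U) : ¬ U.Countable := fun hc => by
  obtain ⟨b, hb⟩ := exists_bound hc
  obtain ⟨ξ, hξ, h1⟩ := h b
  exact lt_asymm h1 (hb ξ hξ)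

theorem unb_of_not_countable {U : Set W} (h : ¬ U.Countable) : Unb U := by
  intro γ
  by_contra hcon
  push Not at hcon
  refine h (((countable_Iio γ).union (countable_singleton γ)).mono fun ξ hξ => ?_)
  rcases (hcon ξ hξ).lt_or_eq with h1 | h1
  · exact Or.inl h1
  · exact Or.inr h1

theorem unb_univ : Unb univ := fun γ => by
  obtain ⟨b, hb⟩ := exists_bound (countable_singleton γ)
  exact ⟨b, trivial, hb γ rfl⟩

theorem exists_gt' (γ : W) : ∃ b, γ < b := by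
  obtain ⟨b, -, h⟩ := unb_univ γ; exact ⟨b, h⟩

/-- sets of indices whose every member lies in countably many sets are bounded -/
theorem exists_bound' {U : Set W} (h : U.Countable) : ∃ b : W, ∀ a ∈ U, a < b := exists_bound h

theorem countable_of_bdd {U : Set W} {γ : W} (h : ∀ ξ ∈ U, ξ ≤ γ) : U.Countable :=
  ((countable_Iio γ).union (countable_singleton γ)).mono fun ξ hξ =>
    (h ξ hξ).lt_or_eq.elim Or.inl Or.inr

theorem not_unb_countable {U : Set W} (h : ¬ Unb U) : U.Countable := by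
  unfold Unb at h
  push Not at h
  obtain ⟨γ, hγ⟩ := h
  exact countable_of_bdd hγ

/-- pigeonhole -/
theorem pigeon {C : Type*} {U : Set W} (hU : Unb U) (c : W → C) (hc : (c '' U).Countable) :
    ∃ U' ⊆ U, Unb U' ∧ ∀ ξ ∈ U', ∀ ζ ∈ U', c ξ = c ζ := by
  by_contra hcon
  push Not at hcon
  have h1 : ∀ t ∈ c '' U, {ξ ∈ U | c ξ = t}.Countable := by
    intro t _
    refine not_unb_countable fun h => ?_
    obtain ⟨ξ, h1, ζ, h2, h3⟩ := hcon _ (fun ξ hξ => hξ.1) h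
    exact h3 (h1.2.trans h2.2.symm)
  refine hU.not_countable ((hc.biUnion h1).mono fun ξ hξ => ?_)
  exact mem_biUnion (mem_image_of_mem c hξ) ⟨hξ, rfl⟩

theorem pigeon' {C : Type*} [Countable C] {U : Set W} (hU : Unb U) (c : W → C) :
    ∃ U' ⊆ U, Unb U' ∧ ∀ ξ ∈ U', ∀ ζ ∈ U', c ξ = c ζ := pigeon hU c (to_countable _)

/-- finite subsets of a countable set form a countable set -/
theorem countable_finsets {C : Type*} {S : Set C} (hS : S.Countable) :
    {s : Finset C | (↑s : Set C) ⊆ S}.Countable := by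
  have h := countable_ofPred_finite_subset hS
  refine (h.preimage_of_injOn (f := fun s : Finset C => (↑s : Set C))
    (Finset.coe_injective.injOn)).mono fun s hs => ?_
  exact ⟨s.finite_toSet, hs⟩

/-- the Δ-system lemma -/
theorem delta {T : Type*} [DecidableEq T] (a : W → Finset T) {U : Set W} (hU : Unb U) :
    ∃ D : Finset T, ∃ U' ⊆ U, Unb U' ∧ (∀ ξ ∈ U', D ⊆ a ξ) ∧
      ∀ ξ ∈ U', ∀ ζ ∈ U', ξ ≠ ζ → ∀ t ∈ a ξ, t ∈ a ζ → t ∈ D := by
  classical
  obtain ⟨U1, hU1, hU1u, hn⟩ := pigeon' hU (fun ξ => (a ξ).card)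
  -- a finite set `D` of maximal size contained in unboundedly many `a ξ`
  obtain ⟨ξ0, hξ0, -⟩ := hU1u (Classical.arbitrary W)
  have hex : ∃ n, ∃ D : Finset T, D.card = n ∧ Unb {ξ ∈ U1 | D ⊆ a ξ} :=
    ⟨0, ∅, rfl, by simpa using hU1u⟩
  have hbd : ∀ n, (∃ D : Finset T, D.card = n ∧ Unb {ξ ∈ U1 | D ⊆ a ξ}) → n ≤ (a ξ0).card := by
    rintro n ⟨D, rfl, h⟩
    obtain ⟨ξ, hξ, -⟩ := h ξ0
    rw [hn ξ0 hξ0 ξ hξ.1]
    exact Finset.card_le_card hξ.2
  obtain ⟨m, ⟨D, hDm, hD⟩, hmax⟩ : ∃ m, (∃ D : Finset T, D.card = m ∧ Unb {ξ ∈ U1 | D ⊆ a ξ}) ∧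
      ∀ n, (∃ D : Finset T, D.card = n ∧ Unb {ξ ∈ U1 | D ⊆ a ξ}) → n ≤ m := by
    refine ⟨Nat.findGreatest _ (a ξ0).card,
      Nat.findGreatest_spec (P := fun n => ∃ D : Finset T, D.card = n ∧ Unb {ξ ∈ U1 | D ⊆ a ξ})
        (hbd 0 ⟨∅, rfl, by simpa using hU1u⟩) ⟨∅, rfl, by simpa using hU1u⟩, fun n hn => ?_⟩
    exact Nat.le_findGreatest (hbd n hn) hn
  set V := {ξ ∈ U1 | D ⊆ a ξ} with hV
  have hct : ∀ t, t ∉ D → {ξ ∈ V | t ∈ a ξ}.Countable := by
    intro t ht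
    refine not_unb_countable fun h => ?_
    have h1 := hmax (m + 1) ⟨insert t D, by rw [Finset.card_insert_of_notMem ht, hDm], ?_⟩
    · omega
    · intro γ
      obtain ⟨ξ, hξ, h2⟩ := h γ
      exact ⟨ξ, ⟨hξ.1.1, Finset.insert_subset hξ.2 hξ.1.2⟩, h2⟩
  -- a maximal subfamily
  let Q : Set (Set W) := {S | S ⊆ V ∧ ∀ ξ ∈ S, ∀ ζ ∈ S, ξ ≠ ζ → ∀ t ∈ a ξ, t ∈ a ζ → t ∈ D}
  obtain ⟨S, hS⟩ : ∃ S, Maximal (· ∈ Q) S := by
    refine zorn_subset Q fun c hcQ hc => ⟨⋃₀ c, ⟨?_, ?_⟩, fun s hs => subset_sUnion_of_mem hs⟩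
    · exact sUnion_subset fun s hs => (hcQ hs).1
    · rintro ξ ⟨s, hs, hξ⟩ ζ ⟨s', hs', hζ⟩ hne t h1 h2
      rcases hc.total hs hs' with h | h
      · exact (hcQ hs').2 ξ (h hξ) ζ hζ hne t h1 h2
      · exact (hcQ hs).2 ξ hξ ζ (h hζ) hne t h1 h2
  refine ⟨D, S, hS.prop.1.trans (fun ξ hξ => hU1 hξ.1), ?_, fun ξ hξ => (hS.prop.1 hξ).2,
    hS.prop.2⟩
  by_contra hcon
  have hSc := not_unb_countable hcon
  have hBc : (⋃ ζ ∈ S, ⋃ t ∈ ((a ζ : Finset T) : Set T) \ ↑D, {ξ ∈ V | t ∈ a ξ}).Countable := by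
    refine hSc.biUnion fun ζ _ => ?_
    refine Countable.biUnion (((a ζ).finite_toSet.countable).mono sdiff_subset) fun t ht => ?_
    exact hct t (by simpa using ht.2)
  obtain ⟨γ, hγ⟩ := exists_bound (hSc.union hBc)
  obtain ⟨ξ, hξV, hγξ⟩ := hD γ
  have hξS : ξ ∉ S := fun h => lt_asymm hγξ (hγ ξ (Or.inl h))
  have hdis : ∀ ζ ∈ S, ∀ t ∈ a ζ, t ∈ a ξ → t ∈ D := by
    intro ζ hζ t h1 h2
    by_contra h3
    refine lt_asymm hγξ (hγ ξ (Or.inr ?_))
    refine mem_biUnion hζ (mem_biUnion (x := t) ⟨h1, by simpa using h3⟩ ⟨hξV, h2⟩)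
  have hins : insert ξ S ∈ Q := by
    refine ⟨insert_subset hξV hS.prop.1, ?_⟩
    rintro x (rfl | hx) y (rfl | hy) hne t h1 h2
    · exact absurd rfl hne
    · exact hdis y hy t h2 h1
    · exact hdis x hx t h1 h2
    · exact hS.prop.2 x hx y hy hne t h1 h2
  exact hξS (hS.le_of_ge hins (subset_insert ξ S) (mem_insert ξ S))

/-- points closed under a function -/
theorem exists_closed (g : W → W) (b : W) : ∃ α, Lim α ∧ b < α ∧ ∀ γ < α, g γ < α := by
  have h1 : ∀ x : W, ∃ y, x < y ∧ ∀ γ ≤ x, g γ < y := by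
    intro x
    obtain ⟨y, hy⟩ := exists_bound ((((countable_Iio x).union (countable_singleton x)).image g).union
      (countable_singleton x))
    refine ⟨y, hy x (Or.inr rfl), fun γ hγ => hy _ (Or.inl ⟨γ, ?_, rfl⟩)⟩
    exact hγ.lt_or_eq.elim Or.inl Or.inr
  choose nx hn1 hn2 using h1
  let h : ℕ → W := fun n => nx^[n] b
  have hs : ∀ n, h (n + 1) = nx (h n) := fun n => Function.iterate_succ_apply' nx n b
  obtain ⟨c, hc⟩ := exists_bound (countable_range h)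
  have hne : {x : W | ∀ n, h n < x}.Nonempty := ⟨c, fun n => hc _ ⟨n, rfl⟩⟩
  obtain ⟨α, hα, hmin⟩ := WellFounded.has_min (wellFounded_lt (α := W)) _ hne
  have hα : ∀ n, h n < α := hα
  have key : ∀ γ < α, ∃ n, γ ≤ h n := by
    intro γ hγ
    by_contra hcon
    push Not at hcon
    exact hmin γ hcon hγ
  refine ⟨α, ⟨⟨b, hα 0⟩, fun γ hγ => ?_⟩, hα 0, fun γ hγ => ?_⟩
  · obtain ⟨n, hn⟩ := key γ hγ
    exact ⟨h (n + 1), hα _, hn.trans_lt (by rw [hs]; exact hn1 _)⟩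
  · obtain ⟨n, hn⟩ := key γ hγ
    exact (hn2 (h n) γ hn).trans (by rw [← hs]; exact hα _)

/-- bounding functions -/
theorem exists_boundfun (S : W → Set W) (hS : ∀ γ, (S γ).Countable) :
    ∃ G : W → W, ∀ γ, ∀ ξ ≤ γ, ∀ x ∈ S ξ, x < G γ := by
  have : ∀ γ, ∃ b, ∀ ξ ≤ γ, ∀ x ∈ S ξ, x < b := by
    intro γ
    have hc : (⋃ ξ ∈ {ξ : W | ξ ≤ γ}, S ξ).Countable :=
      (countable_of_bdd (γ := γ) fun ξ hξ => hξ).biUnion fun ξ _ => hS ξ
    obtain ⟨b, hb⟩ := exists_bound hc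
    exact ⟨b, fun ξ hξ x hx => hb x (mem_biUnion (show ξ ∈ {ξ : W | ξ ≤ γ} from hξ) hx)⟩
  choose G hG using this
  exact ⟨G, hG⟩

/-- a regressive-free measure of the position in a limit point: `dp α x` is a natural number,
monotone and unbounded in `x < α` -/
theorem exists_dp : ∃ dp : W → W → ℕ, ∀ α, Lim α →
    (∀ x < α, ∀ y ≤ x, dp α y ≤ dp α x) ∧ ∀ n, ∃ x < α, n < dp α x := by
  have h : ∀ α : W, ∃ d : W → ℕ, Lim α → (∀ x < α, ∀ y ≤ x, d y ≤ d x) ∧ ∀ n, ∃ x < α, n < d x := by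
    intro α
    by_cases hα : Lim α
    · classical
      obtain ⟨f, hf⟩ := (countable_Iio α).exists_eq_range (by obtain ⟨γ, hγ⟩ := hα.1; exact ⟨γ, hγ⟩)
      have hf1 : ∀ n, f n < α := fun n => by
        have : f n ∈ Iio α := by rw [hf]; exact ⟨n, rfl⟩
        exact this
      have hf2 : ∀ x < α, ∃ n, x ≤ f n := fun x hx => by
        have : x ∈ range f := by rw [← hf]; exact hx
        obtain ⟨n, hn⟩ := this
        exact ⟨n, hn.ge⟩
      refine ⟨fun x => sInf {n | x ≤ f n}, fun _ => ⟨fun x hx y hy => ?_, fun n => ?_⟩⟩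
      · have h1 : sInf {n | x ≤ f n} ∈ {n | x ≤ f n} := Nat.sInf_mem (hf2 x hx)
        exact Nat.sInf_le (hy.trans h1)
      · have h2 : ∃ x < α, ∀ m ≤ n, f m < x := by
          induction n with
          | zero =>
            obtain ⟨x, hx, h⟩ := hα.2 _ (hf1 0)
            exact ⟨x, hx, fun m hm => by rw [Nat.le_zero.1 hm]; exact h⟩
          | succ n ih =>
            obtain ⟨x, hx, h⟩ := ih
            obtain ⟨y, hy, h'⟩ := hα.2 _ (max_lt hx (hf1 (n + 1)))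
            refine ⟨y, hy, fun m hm => ?_⟩
            rcases Nat.le_succ_iff.1 hm with h1 | h1
            · exact (h m h1).trans ((le_max_left _ _).trans_lt h')
            · rw [h1]; exact (le_max_right _ _).trans_lt h'
        obtain ⟨x, hx, h⟩ := h2
        refine ⟨x, hx, ?_⟩
        by_contra hcon
        rw [not_lt] at hcon
        have h1 : sInf {n | x ≤ f n} ∈ {n | x ≤ f n} := Nat.sInf_mem (hf2 x hx)
        exact absurd (h _ hcon) (not_lt.2 h1)
    · exact ⟨fun _ => 0, fun h => absurd h hα⟩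
  choose d hd using h
  exact ⟨d, hd⟩

/-- `dp α x`: the level of `x` in `α` -/
noncomputable def dp : W → W → ℕ := exists_dp.choose

theorem dp_mono {α : W} (hα : Lim α) {x y : W} (hx : x < α) (hy : y ≤ x) : dp α y ≤ dp α x :=
  (exists_dp.choose_spec α hα).1 x hx y hy

theorem dp_unb {α : W} (hα : Lim α) (n : ℕ) : ∃ x < α, n < dp α x :=
  (exists_dp.choose_spec α hα).2 n

/-- a strict upper bound, below a limit, of finitely many points below the limit -/
theorem Lim.bound {α : W} (hα : Lim α) (s : Finset W) : ∃ b < α, ∀ x ∈ s, x < α → x < b := by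
  classical
  induction s using Finset.induction_on with
  | empty => obtain ⟨γ, hγ⟩ := hα.1; exact ⟨γ, hγ, by simp⟩
  | insert a s _ ih =>
    obtain ⟨b, hb, h⟩ := ih
    by_cases ha : a < α
    · obtain ⟨c, hc, h'⟩ := hα.2 _ (max_lt hb ha)
      refine ⟨c, hc, fun x hx hxα => ?_⟩
      rcases Finset.mem_insert.1 hx with rfl | hx
      · exact (le_max_right _ _).trans_lt h'
      · exact (h x hx hxα).trans ((le_max_left _ _).trans_lt h')
    · refine ⟨b, hb, fun x hx hxα => ?_⟩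
      rcases Finset.mem_insert.1 hx with rfl | hx
      · exact absurd hxα ha
      · exact h x hx hxα

end H9.PF
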