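import Pool.Agent.H9.PF.GoodThm
import Pool.Agent.H2.LH.Model

/-!
# Raising `θ` from `1` to `κ` in the proxy principle consistently fails (from ZFC alone)

`IsZFC` is in `Pool/Agent/H85/Forcing/Defs.lean`, the basic notions relativized to `(M, E)`
(`Rel`, `IsOrd`, `IsLim`, `IsFun`, `IsUncReg`, `IsClub`, ...) are in
`Pool/Agent/H85/Forcing/OSDefs.lean`, and the notions of the problem (`InAcc`, `InNacc`, `InK`,
`Sq`, `SqStar`, `LeftRel`, `RightRel`, `OmegaRel`, `IsSeq`, `StatIn`, `CofSeq`, `PMinus`, ...) are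
in `Pool/Agent/H9/PF/PDefs.lean`.

Proof (joint work of helper9 and helper2). `Pool/Agent/H9/PF`: a ccc forcing notion with finite
conditions, indexed by a `W`-type of hereditary names (`good_PP`). `Pool/Agent/H2/LH`: from it to
the Boolean-valued model, on the library of helper85 (`model_of_good`).
-/

namespace H9.PF.ConsistentFailure

open H85.Forcing H9.PF

/-- There is a model `(M, E)` of ZFC in which, for some regular uncountable `κ`, for `μ = ν = 2`,
for `Ω = κ` (all ordinals below `κ`), for every `χ` and for each of the four relations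
`Q = _χ⊑, _χ⊑*, ⊑_χ, ⊑*_χ`, the principle `P⁻(κ, 2, ^ΩQ, θ, {κ}, 2)` holds for `θ = 1` and fails
for `θ = ω` and for `θ = κ`. -/
theorem result : ∃ (M : Type 1) (E : M → M → Prop), IsZFC E ∧ ∃ kap om one two : M,
    IsUncReg E kap ∧ IsOm E om ∧ IsOne E one ∧ IsTwo E two ∧ IsCard E two ∧
    ∀ chi : M, ∀ R : M → M → Prop, R = Sq E ∨ R = SqStar E →
      ∀ Q : M → M → Prop, Q = LeftRel E R chi ∨ Q = RightRel E R chi →
        PMinus E kap two (OmegaRel E Q kap) one two ∧
        ¬ PMinus E kap two (OmegaRel E Q kap) om two ∧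
        ¬ PMinus E kap two (OmegaRel E Q kap) kap two := by
  obtain ⟨M, E, hZ, kap, om, one, two, h1, h2, h3, h4, h5, h⟩ := H2.LH.model_of_good good_PP
  exact ⟨M, E, hZ, kap, om, one, two, h1, h2, h3, h4, h5, fun _ _ _ Q _ => h Q⟩

end H9.PF.ConsistentFailure
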