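import Pool.Agent.H9.PF.Step

/-!
# The forcing notion and its properties
-/

open Set

namespace H9.PF
open H85.Forcing H85.Forcing.RO

/-- the forcing notion -/
def PP : Type := {p : Cd // Cnd p}

instance : Preorder PP where
  le q p := Le q.1 p.1
  le_refl p := Le.refl p.1
  le_trans _ _ _ h h' := h.trans h'

theorem PP.le_def {q p : PP} : q ≤ p ↔ Le q.1 p.1 := Iff.rfl

/-- the Boolean value of `x ∈ L_α` for the Cohen ladder system `L` -/
def LL (α x : W) : RO PP := regl fun p => Fact.l α x ∈ p.1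

/-- the Boolean value of `x ∈ B_i` at the coordinate `ν` -/
def BB (ν : Nm) (i : ℕ) (x : W) : RO PP := regl fun p => Fact.b ν i x ∈ p.1

theorem forces_LL {p : PP} {α x : W} : p ∈ LL α x ↔ ∀ q ≤ p, ∃ r ≤ q, Fact.l α x ∈ r.1 := by
  unfold LL
  rw [forces_regl]
  constructor
  · intro h q hq
    obtain ⟨r, hr, s, hs, hrs⟩ := h q hq
    exact ⟨r, hr, hrs.sub hs⟩
  · intro h q hq
    obtain ⟨r, hr, hr2⟩ := h q hq
    exact ⟨r, hr, r, hr2, le_rfl⟩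

theorem forces_BB {p : PP} {ν : Nm} {i : ℕ} {x : W} :
    p ∈ BB ν i x ↔ ∀ q ≤ p, ∃ r ≤ q, Fact.b ν i x ∈ r.1 := by
  unfold BB
  rw [forces_regl]
  constructor
  · intro h q hq
    obtain ⟨r, hr, s, hs, hrs⟩ := h q hq
    exact ⟨r, hr, hrs.sub hs⟩
  · intro h q hq
    obtain ⟨r, hr, hr2⟩ := h q hq
    exact ⟨r, hr, r, hr2, le_rfl⟩

theorem LL_of_mem {p : PP} {α x : W} (h : Fact.l α x ∈ p.1) : p ∈ LL α x :=
  forces_LL.2 fun q hq => ⟨q, le_rfl, hq.sub h⟩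

theorem BB_of_mem {p : PP} {ν : Nm} {i : ℕ} {x : W} (h : Fact.b ν i x ∈ p.1) : p ∈ BB ν i x :=
  forces_BB.2 fun q hq => ⟨q, le_rfl, hq.sub h⟩

/-- adding a point of a Cohen ladder -/
theorem exists_add_l (p : PP) {α x : W} (hα : Lim α) (hx : x < α)
    (h : ∀ y, Fact.l α y ∈ p.1 → dp α y ≠ dp α x) : ∃ q ≤ p, q.1 = insert (Fact.l α x) p.1 := by
  have hm : ∀ f, f ∈ insert (Fact.l α x) p.1 ↔ f = Fact.l α x ∨ f ∈ p.1 := fun f =>
    Finset.mem_insert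
  refine ⟨⟨insert (Fact.l α x) p.1, ⟨⟨?_, ?_, ?_, ?_⟩, ?_⟩⟩, ?_, rfl⟩
  · intro β y z hy hz hyz
    rcases (hm _).1 hy with uy | uy <;> rcases (hm _).1 hz with uz | uz
    · rw [Fact.l.injEq] at uy uz; rw [uy.2, uz.2]
    · rw [Fact.l.injEq] at uy
      obtain ⟨rfl, rfl⟩ := uy
      exact absurd hyz.symm (h z uz)
    · rw [Fact.l.injEq] at uz
      obtain ⟨rfl, rfl⟩ := uz
      exact absurd hyz (h y uy)
    · exact p.2.ok.fl β y z uy uz hyz
  · intro ν β i j hy hz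
    exact p.2.ok.fs ν β i j (((hm _).1 hy).resolve_left (by simp))
      (((hm _).1 hz).resolve_left (by simp))
  · intro β y hy
    rcases (hm _).1 hy with uy | uy
    · rw [Fact.l.injEq] at uy
      obtain ⟨rfl, rfl⟩ := uy
      exact ⟨hα, hx⟩
    · exact p.2.ok.ll β y uy
  · intro ν β i hy
    exact p.2.ok.ls ν β i (((hm _).1 hy).resolve_left (by simp))
  · intro f hf
    rcases (hm _).1 hf with rfl | hf
    · trivial
    · exact p.2.hg f hf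
  · refine Le.of_no_new (Finset.subset_insert _ _) fun ν i y hy => ?_
    exact ((hm _).1 hy).resolve_left (by simp)

/-- adding a point of `B_i` above everything -/
theorem exists_add_b (p : PP) {ν : Nm} (hν : HG ν) (i : ℕ) {x : W} (hx : ∀ f ∈ p.1, f.ord ≤ x) :
    ∃ q ≤ p, q.1 = insert (Fact.b ν i x) p.1 := by
  have hm : ∀ f, f ∈ insert (Fact.b ν i x) p.1 ↔ f = Fact.b ν i x ∨ f ∈ p.1 := fun f =>
    Finset.mem_insert
  refine ⟨⟨insert (Fact.b ν i x) p.1, ⟨⟨?_, ?_, ?_, ?_⟩, ?_⟩⟩, ?_, rfl⟩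
  · intro β y z hy hz
    exact p.2.ok.fl β y z (((hm _).1 hy).resolve_left (by simp))
      (((hm _).1 hz).resolve_left (by simp))
  · intro μ β i j hy hz
    exact p.2.ok.fs μ β i j (((hm _).1 hy).resolve_left (by simp))
      (((hm _).1 hz).resolve_left (by simp))
  · intro β y hy
    exact p.2.ok.ll β y (((hm _).1 hy).resolve_left (by simp))
  · intro μ β i hy
    exact p.2.ok.ls μ β i (((hm _).1 hy).resolve_left (by simp))
  · intro f hf
    rcases (hm _).1 hf with rfl | hf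
    · exact hν
    · exact p.2.hg f hf
  · refine Le.intro (Finset.subset_insert _ _) fun μ α j y h1 h2 h3 h4 => ?_
    rcases (hm _).1 h2 with h2 | h2
    · rw [Fact.b.injEq] at h2
      obtain ⟨rfl, rfl, rfl⟩ := h2
      exact absurd (hx _ h1) (not_le.2 h4)
    · exact absurd h2 h3

/-- adding a promise -/
theorem exists_add_s (p : PP) {ν : Nm} (hν : HG ν) {α : W} (hα : Lim α) (i : ℕ)
    (h : ∀ j, Fact.s ν α j ∉ p.1) : ∃ q ≤ p, q.1 = insert (Fact.s ν α i) p.1 := by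
  have hm : ∀ f, f ∈ insert (Fact.s ν α i) p.1 ↔ f = Fact.s ν α i ∨ f ∈ p.1 := fun f =>
    Finset.mem_insert
  refine ⟨⟨insert (Fact.s ν α i) p.1, ⟨⟨?_, ?_, ?_, ?_⟩, ?_⟩⟩, ?_, rfl⟩
  · intro β y z hy hz
    exact p.2.ok.fl β y z (((hm _).1 hy).resolve_left (by simp))
      (((hm _).1 hz).resolve_left (by simp))
  · intro μ β j k hy hz
    rcases (hm _).1 hy with uy | uy <;> rcases (hm _).1 hz with uz | uz
    · rw [Fact.s.injEq] at uy uz; rw [uy.2.2, uz.2.2]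
    · rw [Fact.s.injEq] at uy
      obtain ⟨rfl, rfl, rfl⟩ := uy
      exact absurd uz (h k)
    · rw [Fact.s.injEq] at uz
      obtain ⟨rfl, rfl, rfl⟩ := uz
      exact absurd uy (h j)
    · exact p.2.ok.fs μ β j k uy uz
  · intro β y hy
    exact p.2.ok.ll β y (((hm _).1 hy).resolve_left (by simp))
  · intro μ β j hy
    rcases (hm _).1 hy with uy | uy
    · rw [Fact.s.injEq] at uy
      obtain ⟨rfl, rfl, rfl⟩ := uy
      exact hα
    · exact p.2.ok.ls μ β j uy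
  · intro f hf
    rcases (hm _).1 hf with rfl | hf
    · exact hν
    · exact p.2.hg f hf
  · refine Le.of_no_new (Finset.subset_insert _ _) fun μ j y hy => ?_
    exact ((hm _).1 hy).resolve_left (by simp)

/-- ranks are bounded -/
theorem exists_top : ∃ τ : Ordinal.{0}, ∀ p : Cd, Bd τ p := by
  refine ⟨⨆ ν : Nm, Order.succ (rk ν), fun p f _ => ?_⟩
  have h : ∀ ν : Nm, rk ν < ⨆ ν : Nm, Order.succ (rk ν) := fun ν =>
    (Order.lt_succ _).trans_le (Ordinal.le_iSup (fun ν : Nm => Order.succ (rk ν)) ν)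
  cases f with
  | l => trivial
  | b ν => exact h ν
  | s ν => exact h ν

theorem hit_PP (F : W → PP × W) (hF : ∀ ξ, ξ < (F ξ).2) (g : W → W) :
    ∃ α, Lim α ∧ (∀ γ < α, g γ < α) ∧ ∃ q : PP, ∀ q' ≤ q, ∀ γ < α,
      ∃ ξ, γ < (F ξ).2 ∧ (F ξ).2 < α ∧ ∃ r ≤ q', r ≤ (F ξ).1 ∧ r ∈ LL α (F ξ).2 := by
  obtain ⟨τ, hτ⟩ := exists_top
  obtain ⟨α, h1, h2, q, h3, -, h4⟩ := hit_all τ (fun ξ => ((F ξ).1.1, (F ξ).2))
    (fun ξ => ⟨(F ξ).1.2, hτ _, hF ξ⟩) g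
  refine ⟨α, h1, h2, ⟨q, h3⟩, fun q' hq' γ hγ => ?_⟩
  obtain ⟨ξ, k1, k2, r, k3, -, k4, k5, k6⟩ := h4 q'.1 q'.2 (hτ _) hq' γ hγ
  exact ⟨ξ, k1, k2, ⟨r, k3⟩, k4, k5, LL_of_mem (p := ⟨r, k3⟩) k6⟩

theorem ccc_PP (A : Set PP) (hA : ∀ p ∈ A, ∀ q ∈ A, (∃ r, r ≤ p ∧ r ≤ q) → p = q) :
    A.Countable := by
  by_contra hc
  have h1 : Cardinal.mk W ≤ Cardinal.mk A := by
    have h2 : Cardinal.aleph0 < Cardinal.mk A := by
      rw [← Cardinal.le_aleph0_iff_set_countable] at hc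
      exact not_le.1 hc
    have h3 : Cardinal.mk W = Cardinal.aleph 1 := by simp
    rw [h3, ← Cardinal.succ_aleph0]
    exact Order.succ_le_of_lt h2
  obtain ⟨f⟩ := (Cardinal.le_def _ _).1 h1
  choose sc hsc using exists_gt'
  obtain ⟨α, hα, -, q, hq⟩ := hit_PP (fun ξ => ((f ξ).1, sc ξ)) (fun ξ => hsc ξ) (fun ξ => ξ)
  obtain ⟨γ, hγ⟩ := hα.1
  obtain ⟨ξ, -, k2, r, k3, k4, -⟩ := hq q le_rfl γ hγ
  obtain ⟨ζ, l1, l2, s, l3, l4, -⟩ := hq r k3 _ k2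
  have h5 : (f ξ).1 = (f ζ).1 := hA _ (f ξ).2 _ (f ζ).2 ⟨s, l3.trans k4, l4⟩
  have h6 : ξ = ζ := f.injective (Subtype.ext h5)
  rw [h6] at l1
  exact lt_irrefl _ l1

/-! ### the Cohen ladder system -/

/-- the point in a fact -/
def Fact.pt : Fact → W
  | .l _ x => x
  | .b _ _ x => x
  | .s _ x _ => x

theorem exists_add_l' (p : PP) {α : W} (hα : Lim α) (n : ℕ) :
    ∃ q ≤ p, ∃ x < α, n < dp α x ∧ Fact.l α x ∈ q.1 := by
  obtain ⟨x, hx, h⟩ := dp_unb hα (max n (p.1.sup fun u => dp α u.pt))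
  obtain ⟨q, hq, e⟩ := exists_add_l p hα hx (fun y hy => by
    have h1 : dp α y ≤ p.1.sup fun u => dp α u.pt :=
      Finset.le_sup (f := fun u : Fact => dp α u.pt) hy
    have := (le_max_right n (p.1.sup fun u => dp α u.pt)).trans_lt h
    omega)
  exact ⟨q, hq, x, hx, (le_max_left _ _).trans_lt h, e ▸ Finset.mem_insert_self _ _⟩

theorem LL_cof (α : W) (hα : Lim α) (γ : W) (_ : γ < α) (p : PP) :
    ∃ q ≤ p, ∃ x, γ < x ∧ q ∈ LL α x := by
  obtain ⟨q, hq, x, hx, h, hm⟩ := exists_add_l' p hα (dp α γ)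
  refine ⟨q, hq, x, ?_, LL_of_mem hm⟩
  by_contra hcon
  have := dp_mono hα ‹γ < α› (not_lt.1 hcon)
  omega

theorem LL_lad : LadF LL := by
  intro α hα η hη p
  have key : ∀ m, ∃ q ≤ p, ∀ x < α, dp α x < m → ∃ y, Fact.l α y ∈ q.1 ∧ dp α y = dp α x := by
    intro m
    induction m with
    | zero => exact ⟨p, le_rfl, fun x _ h => absurd h (Nat.not_lt_zero _)⟩
    | succ m ih =>
      obtain ⟨q, hq, h⟩ := ih
      by_cases hh : ∃ x < α, dp α x = m ∧ ∀ y, Fact.l α y ∈ q.1 → dp α y ≠ dp α x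
      · obtain ⟨x, hx, hxm, hy⟩ := hh
        obtain ⟨r, hr, e⟩ := exists_add_l q hα hx hy
        refine ⟨r, hr.trans hq, fun z hz hzm => ?_⟩
        rcases Nat.lt_succ_iff_lt_or_eq.1 hzm with h1 | h1
        · obtain ⟨y, hy1, hy2⟩ := h z hz h1
          exact ⟨y, hr.sub hy1, hy2⟩
        · exact ⟨x, e ▸ Finset.mem_insert_self _ _, hxm.trans h1.symm⟩
      · push Not at hh
        refine ⟨q, hq, fun z hz hzm => ?_⟩
        rcases Nat.lt_succ_iff_lt_or_eq.1 hzm with h1 | h1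
        · exact h z hz h1
        · exact hh z hz h1
  obtain ⟨q, hq, h⟩ := key (dp α η + 1)
  classical
  refine ⟨q, hq, (q.1.filter (fun f => ∃ y, f = Fact.l α y)).image Fact.pt, fun x hx => ?_⟩
  have hw : x ∈ (q.1.filter (fun f => ∃ y, f = Fact.l α y)).image Fact.pt ↔
      Fact.l α x ∈ q.1 := by
    rw [Finset.mem_image]
    constructor
    · rintro ⟨f, hf, rfl⟩
      obtain ⟨h1, y, rfl⟩ := Finset.mem_filter.1 hf
      exact h1
    · intro h1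
      exact ⟨Fact.l α x, Finset.mem_filter.2 ⟨h1, x, rfl⟩, rfl⟩
  rw [hw]
  refine ⟨LL_of_mem, fun hx' => ?_⟩
  rw [forces_compl]
  intro r hr hrx
  obtain ⟨s, hs, h1⟩ := forces_LL.1 hrx r le_rfl
  obtain ⟨y, hy1, hy2⟩ := h x (hx.trans hη) (Nat.lt_succ_of_le (dp_mono hα hη hx.le))
  have h2 : Fact.l α y ∈ s.1 := (hs.trans hr).sub hy1
  have h3 : y = x := s.2.ok.fl α y x h2 h1 hy2
  exact hx' (h3 ▸ hy1)

/-! ### killing ladder systems -/

theorem exists_max_antichain {P : Type*} [Preorder P] (D : Set P) :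
    ∃ A ⊆ D, (∀ p ∈ A, ∀ q ∈ A, (∃ r, r ≤ p ∧ r ≤ q) → p = q) ∧
      ∀ p ∈ D, ∃ a ∈ A, ∃ r, r ≤ p ∧ r ≤ a := by
  let Q : Set (Set P) := {A | A ⊆ D ∧ ∀ p ∈ A, ∀ q ∈ A, (∃ r, r ≤ p ∧ r ≤ q) → p = q}
  obtain ⟨A, hA⟩ : ∃ A, Maximal (· ∈ Q) A := by
    refine zorn_subset Q fun c hcQ hc => ⟨⋃₀ c, ⟨?_, ?_⟩, fun s hs => subset_sUnion_of_mem hs⟩
    · exact sUnion_subset fun s hs => (hcQ hs).1
    · rintro p ⟨s, hs, hp⟩ q ⟨s', hs', hq⟩ h
      rcases hc.total hs hs' with h' | h'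
      · exact (hcQ hs').2 p (h' hp) q hq h
      · exact (hcQ hs).2 p hp q (h' hq) h
  refine ⟨A, hA.prop.1, hA.prop.2, fun p hp => ?_⟩
  by_contra hcon
  push Not at hcon
  have h1 : insert p A ∈ Q := by
    refine ⟨insert_subset hp hA.prop.1, ?_⟩
    rintro x (rfl | hx) y (rfl | hy) ⟨r, h1, h2⟩
    · rfl
    · exact absurd h2 (hcon y hy r h1)
    · exact absurd h1 (hcon x hx r h2)
    · exact hA.prop.2 x hx y hy ⟨r, h1, h2⟩
  have h2 : p ∈ A := hA.le_of_ge h1 (subset_insert p A) (mem_insert p A)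
  exact hcon p h2 p le_rfl le_rfl

theorem exists_deciding {f : W → W → RO PP} (hf : LadF f) {α η : W} (hα : Lim α) (hη : η < α) :
    ∃ (c : ℕ → PP) (w : ℕ → Finset W), (∀ k, ∀ x < η, (x ∈ w k → c k ∈ f α x) ∧
      (x ∉ w k → c k ∈ (f α x)ᶜ)) ∧ ∀ p, ∃ k r, r ≤ p ∧ r ≤ c k := by
  let D : Set PP := {p | ∃ w : Finset W, ∀ x < η, (x ∈ w → p ∈ f α x) ∧ (x ∉ w → p ∈ (f α x)ᶜ)}
  obtain ⟨A, h1, h2, h3⟩ := exists_max_antichain D
  have hA : ∀ p, ∃ a ∈ A, ∃ r, r ≤ p ∧ r ≤ a := by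
    intro p
    obtain ⟨q, hq, w, hw⟩ := hf α hα η hη p
    obtain ⟨a, ha, r, hr1, hr2⟩ := h3 q ⟨w, hw⟩
    exact ⟨a, ha, r, hr1.trans hq, hr2⟩
  have hne : A.Nonempty := by
    obtain ⟨a, ha, -⟩ := hA ⟨∅, Cnd.empty⟩
    exact ⟨a, ha⟩
  obtain ⟨c, hc⟩ := (ccc_PP A h2).exists_eq_range hne
  have hcA : ∀ k, c k ∈ A := fun k => by rw [hc]; exact mem_range_self k
  choose w hw using fun k => h1 (hcA k)
  refine ⟨c, w, hw, fun p => ?_⟩
  obtain ⟨a, ha, r, hr1, hr2⟩ := hA p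
  rw [hc] at ha
  obtain ⟨k, rfl⟩ := ha
  exact ⟨k, r, hr1, hr2⟩

theorem kill_PP (f : W → W → RO PP) (hf : LadF f) : ∃ b : ℕ → W → RO PP,
    (∀ (i : ℕ) (γ : W) (p : PP), ∃ q ≤ p, ∃ x, γ < x ∧ q ∈ b i x) ∧
    ∀ α, Lim α → ∀ p : PP, ∃ q ≤ p, ∃ i, ∃ γ < α, ∀ x, γ ≤ x → x < α →
      q ∈ (b i x ⊓ f α x)ᶜ := by
  have h0 : ∀ α η : W, ∃ (c : ℕ → PP) (w : ℕ → Finset W), Lim α → η < α →
      (∀ k, ∀ x < η, (x ∈ w k → c k ∈ f α x) ∧ (x ∉ w k → c k ∈ (f α x)ᶜ)) ∧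
      ∀ p, ∃ k r, r ≤ p ∧ r ≤ c k := by
    intro α η
    by_cases h : Lim α ∧ η < α
    · obtain ⟨c, w, h1, h2⟩ := exists_deciding hf h.1 h.2
      exact ⟨c, w, fun _ _ => ⟨h1, h2⟩⟩
    · exact ⟨fun _ => ⟨∅, Cnd.empty⟩, fun _ => ∅, fun h1 h2 => absurd ⟨h1, h2⟩ h⟩
  choose c w hcw using h0
  obtain ⟨ν, hν1, hν2, hν3⟩ := exists_name (fun a e k => (c a e k).1) w
  have hsub : ∀ μ, Sub μ ν → HG μ := by
    intro μ hμ
    obtain ⟨a, e, k, g, hg, hg'⟩ := hν3 μ hμ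
    have h1 := (c a e k).2.hg g hg
    cases g with
    | l => exact absurd trivial hg'
    | b ρ i x =>
      have : ρ = μ := by
        by_contra h; exact hg' h
      exact this ▸ h1
    | s ρ i x =>
      have : ρ = μ := by
        by_contra h; exact hg' h
      exact this ▸ h1
  have htc : ∀ μ, tc ν μ → HG μ := by
    intro μ hμ
    cases hμ with
    | single h => exact hsub μ h
    | tail h h' => exact (hsub _ h').sub h
  have hcnd : ∀ q, Ok q → (∀ f ∈ q, f.In (tc ν)) → Cnd q := fun q h1 h2 =>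
    ⟨h1, fun f hf => (h2 f hf).mono htc⟩
  have hres : ∀ a e k, res (tc ν) (c a e k).1 = (c a e k).1 := by
    intro a e k
    refine res_eq fun g hg => ?_
    rw [← hν1 a e k] at hg
    exact (cond_in ν a e k hg).mono fun _ h => tc_of_sub h
  have hHG : HG ν := by
    rintro μ (rfl | hμ)
    · refine ⟨?_, ?_⟩
      · intro α hα e he q h1 h2
        obtain ⟨k, r, hr1, hr2⟩ := (hcw α e hα he).2 ⟨q, hcnd q h1 h2⟩
        refine ⟨res (tc μ) r.1, r.2.ok.mono (res_sub _ _), res_in, ?_, k, ?_⟩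
        · have := Le.res (closed_tc μ) hr1
          rwa [res_eq h2] at this
        · have := Le.res (closed_tc μ) hr2
          rw [hres] at this
          rwa [hν1]
      · intro α hα e he e' he' k k' q h1 h2 h3 h4 x hx hx'
        rw [hν1] at h3 h4
        rw [hν2, hν2]
        have g1 := (hcw α e hα he).1 k x hx
        have g2 := (hcw α e' hα he').1 k' x hx'
        obtain ⟨Q, rfl⟩ : ∃ Q : PP, Q.1 = q := ⟨⟨q, hcnd q h1 h2⟩, rfl⟩
        have h3' : Q ≤ c α e k := h3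
        have h4' : Q ≤ c α e' k' := h4
        constructor
        · intro hxw
          by_contra hxw'
          exact forces_compl.1 (Forces.down (g2.2 hxw') h4') _ le_rfl (Forces.down (g1.1 hxw) h3')
        · intro hxw
          by_contra hxw'
          exact forces_compl.1 (Forces.down (g1.2 hxw') h3') _ le_rfl (Forces.down (g2.1 hxw) h4')
    · exact htc μ hμ μ (Or.inl rfl)
  refine ⟨BB ν, fun i γ p => ?_, fun α hα p => ?_⟩
  · obtain ⟨x, hx⟩ := exists_bound (s := ((ors p.1 : Finset W) : Set W) ∪ {γ})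
      ((Finset.countable_toSet _).union (countable_singleton γ))
    obtain ⟨q, hq, e⟩ := exists_add_b p hHG i (x := x) fun g hg =>
      (hx _ (Or.inl (mem_ors hg))).le
    exact ⟨q, hq, x, hx γ (Or.inr rfl), BB_of_mem (e ▸ Finset.mem_insert_self _ _)⟩
  · obtain ⟨q, hq, i, hi⟩ : ∃ q ≤ p, ∃ i, Fact.s ν α i ∈ q.1 := by
      by_cases h : ∃ i, Fact.s ν α i ∈ p.1
      · exact ⟨p, le_rfl, h⟩
      · push Not at h
        obtain ⟨q, hq, e⟩ := exists_add_s p hHG hα 0 h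
        exact ⟨q, hq, 0, e ▸ Finset.mem_insert_self _ _⟩
    obtain ⟨γ, hγ, hγ'⟩ := hα.bound (ors q.1)
    refine ⟨q, hq, i, γ, hγ, fun x hx1 hx2 => ?_⟩
    rw [forces_compl]
    rintro r hr ⟨h1, h2⟩
    have h1 : r ∈ BB ν i x := h1
    have h2 : r ∈ f α x := h2
    obtain ⟨s, hs, h3⟩ := forces_BB.1 h1 r le_rfl
    have h4 : Fact.b ν i x ∉ q.1 := fun h => absurd (hγ' x (mem_ors h) hx2) (not_lt.2 hx1)
    have h5 : Le s.1 q.1 := hs.trans hr
    obtain ⟨e, k, k1, k2, k3, k4⟩ := h5.out hi h3 h4 hx2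
    rw [hν1] at k4
    rw [hν2] at k3
    have h6 : s ≤ c α e k := k4
    have h7 := ((hcw α e hα k2).1 k x k1).2 k3
    exact forces_compl.1 (Forces.down h7 h6) s le_rfl (Forces.down h2 hs)

/-- **The forcing notion.** -/
theorem good_PP : Good PP LL where
  nonempty := ⟨⟨∅, Cnd.empty⟩⟩
  ccc := ccc_PP
  L_lt := fun p α x h => by
    obtain ⟨r, -, h1⟩ := forces_LL.1 h p le_rfl
    exact (r.2.ok.ll α x h1).2
  L_cof := LL_cof
  L_fin := LL_lad
  hit := hit_PP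
  kill := kill_PP

end H9.PF
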