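import Pool.Agent.H9.PF.Prep

/-!
# The hitting theorem
-/

open Set

namespace H9.PF

/-- the hitting property for conditions of rank below `τ` -/
def HitAt (τ : Ordinal.{0}) : Prop :=
  ∀ F : W → Cd × W, (∀ ξ, Cnd (F ξ).1 ∧ Bd τ (F ξ).1 ∧ ξ < (F ξ).2) → ∀ g : W → W,
    ∃ α, Lim α ∧ (∀ γ < α, g γ < α) ∧ ∃ q, Cnd q ∧ Bd τ q ∧
      ∀ q', Cnd q' → Bd τ q' → Le q' q → ∀ γ < α, ∃ ξ, γ < (F ξ).2 ∧ (F ξ).2 < α ∧
        ∃ r, Cnd r ∧ Bd τ r ∧ Le r q' ∧ Le r (F ξ).1 ∧ Fact.l α (F ξ).2 ∈ r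

theorem bd_zero {p : Cd} (h : Bd 0 p) {f : Fact} (hf : f ∈ p) : ∃ α x, f = Fact.l α x := by
  have := h f hf
  cases f with
  | l α x => exact ⟨α, x, rfl⟩
  | b ν i x => exact absurd this (not_lt.2 (zero_le (a := rk ν)))
  | s ν α i => exact absurd this (not_lt.2 (zero_le (a := rk ν)))

theorem le_of_bd_zero {q p : Cd} (h : Bd 0 q) (hqp : p ⊆ q) : Le q p := by
  refine Le.intro hqp fun ν α i x _ h2 _ _ => ?_
  obtain ⟨_, _, h3⟩ := bd_zero h h2
  exact absurd h3 (by simp)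

open Classical in
/-- the case of conditions that consist of Cohen information only -/
theorem hit_zero : HitAt 0 := by
  intro F hF g
  obtain ⟨R, U1, -, hU1, -, hR1⟩ := delta (fun ξ => ors (F ξ).1) unb_univ
  let TR : Set Fact := {f | ∃ α ∈ R, ∃ x < α, f = Fact.l α x}
  have hTR : TR.Countable := by
    have : TR ⊆ ⋃ α ∈ (R : Set W), (fun x => Fact.l α x) '' Iio α := by
      rintro f ⟨α, hα, x, hx, rfl⟩
      exact mem_biUnion hα ⟨x, hx, rfl⟩
    exact Countable.mono this (R.finite_toSet.countable.biUnion fun α _ =>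
      (countable_Iio α).image _)
  obtain ⟨U2, hU21, hU2, htr⟩ := pigeon hU1 (fun ξ => (F ξ).1.filter (fun f => f ∈ TR))
    ((countable_finsets hTR).mono (by
      rintro _ ⟨ξ, -, rfl⟩ f hf
      exact (Finset.mem_filter.1 hf).2))
  obtain ⟨f, hfm, hf⟩ := choose_mono (fun _ ξ => ξ ∈ U2) (fun _ γ => by
    obtain ⟨ξ, h1, h2⟩ := hU2 γ; exact ⟨ξ, h2, h1⟩)
  let S : W → Set W := fun ξ => {g ξ, (F (f ξ)).2} ∪ ((ors (F (f ξ)).1 : Finset W) : Set W)
  obtain ⟨G, hG⟩ := exists_boundfun S fun ξ =>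
    ((countable_singleton _).insert _).union (Finset.countable_toSet _)
  obtain ⟨b0, hb0⟩ := exists_bound (s := (R : Set W)) (Finset.countable_toSet _)
  obtain ⟨α, hα, hb0α, hcl⟩ := exists_closed G b0
  have hX : ∀ ξ < α, (F (f ξ)).2 < α := fun ξ hξ =>
    (hG ξ ξ le_rfl _ (Or.inl (Or.inr rfl))).trans (hcl ξ hξ)
  have ho : ∀ ξ < α, ∀ x ∈ ors (F (f ξ)).1, x < α := fun ξ hξ x hx =>
    (hG ξ ξ le_rfl _ (Or.inr hx)).trans (hcl ξ hξ)
  have hαR : α ∉ R := fun h => lt_asymm hb0α (hb0 α h)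
  refine ⟨α, hα, fun γ hγ => (hG γ γ le_rfl _ (Or.inl (Or.inl rfl))).trans (hcl γ hγ), ?_⟩
  set q : Cd := (F (f b0)).1.filter (fun f => f ∈ TR) with hq
  have hqF : ∀ ζ, (F (f ζ)).1.filter (fun f => f ∈ TR) = q := fun ζ =>
    htr _ (hf ζ).2 _ (hf b0).2
  refine ⟨q, (hF (f b0)).1.mono (Finset.filter_subset _ _), fun u hu =>
    (hF (f b0)).2.1 u (Finset.mem_filter.1 hu).1, ?_⟩
  intro q' h1 h2 h3 γ hγ
  -- bounds
  have hex : ∀ β, ∃ ζ, ∀ ζ', β ∉ R → β ∈ ors (F (f ζ')).1 → ζ' = ζ := by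
    intro β
    by_cases hh : ∃ ζ, β ∉ R ∧ β ∈ ors (F (f ζ)).1
    · obtain ⟨ζ, h4, h5⟩ := hh
      refine ⟨ζ, fun ζ' _ h6 => ?_⟩
      by_contra hne
      exact h4 (hR1 _ (hU21 (hf ζ).2) _ (hU21 (hf ζ').2)
        (fun e => hne (hfm.injective e.symm)) β h5 h6)
    · exact ⟨α, fun ζ' h5 h6 => absurd ⟨ζ', h5, h6⟩ hh⟩
  choose e he using hex
  obtain ⟨x0, hx0, hx0'⟩ := dp_unb hα (q'.sup fun u => dp α (match u with
    | .l _ x => x
    | .b _ _ x => x
    | .s _ x _ => x))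
  obtain ⟨γ1, hγ1, hγ1'⟩ := hα.bound ((ors q').image e ∪ {x0})
  -- the index
  let ζ := max γ1 (max b0 γ)
  have hζα : ζ < α := max_lt hγ1 (max_lt hb0α hγ)
  have hζ1 : (F (f ζ)).2 < α := hX ζ hζα
  have hζ2 : ζ < (F (f ζ)).2 := (hf ζ).1.trans (hF _).2.2
  have hnew : ∀ β x, Fact.l β x ∈ (F (f ζ)).1 → β ∈ ors q' → Fact.l β x ∈ q' := by
    intro β x h5 h6
    have hβR : β ∈ R := by
      by_contra hβR
      have h7 : ζ = e β := he β ζ hβR (mem_ors h5)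
      have h8 : e β < γ1 := hγ1' _ (Finset.mem_union_left _ (Finset.mem_image_of_mem _ h6))
        (h7 ▸ hζα)
      rw [← h7] at h8
      exact absurd (le_max_left γ1 (max b0 γ)) (not_le.2 h8)
    have h9 : Fact.l β x ∈ (F (f ζ)).1.filter (fun f => f ∈ TR) :=
      Finset.mem_filter.2 ⟨h5, β, hβR, x, ((hF (f ζ)).1.ok.ll β x h5).2, rfl⟩
    rw [hqF ζ] at h9
    exact h3.sub h9
  have hdp : ∀ x, Fact.l α x ∈ q' → dp α x < dp α (F (f ζ)).2 := by
    intro x hx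
    have h5 : dp α x ≤ q'.sup fun u => dp α (match u with
      | .l _ x => x
      | .b _ _ x => x
      | .s _ x _ => x) := Finset.le_sup (f := fun u => dp α (match u with
      | Fact.l _ x => x
      | .b _ _ x => x
      | .s _ x _ => x)) hx
    have h6 : x0 < γ1 := hγ1' x0 (Finset.mem_union_right _ (Finset.mem_singleton_self _)) hx0
    have h7 : dp α x0 ≤ dp α (F (f ζ)).2 :=
      dp_mono hα hζ1 ((h6.le.trans (le_max_left _ _)).trans hζ2.le)
    omega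
  have hno : ∀ x, Fact.l α x ∉ (F (f ζ)).1 := fun x hx =>
    lt_irrefl α (ho ζ hζα α (mem_ors hx))
  set r : Cd := insert (Fact.l α (F (f ζ)).2) (q' ∪ (F (f ζ)).1) with hr
  have hmem : ∀ u, u ∈ r ↔ u = Fact.l α (F (f ζ)).2 ∨ u ∈ q' ∨ u ∈ (F (f ζ)).1 := fun u => by
    rw [hr, Finset.mem_insert, Finset.mem_union]
  have hbd : Bd 0 r := by
    intro u hu
    rcases (hmem u).1 hu with rfl | hu | hu
    · trivial
    · exact h2 u hu
    · exact (hF (f ζ)).2.1 u hu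
  have hok : Ok r := by
    refine ⟨?_, ?_, ?_, ?_⟩
    · intro β x y hx hy hxy
      rcases (hmem _).1 hx with ux | ux | ux <;> rcases (hmem _).1 hy with uy | uy | uy
      · rw [Fact.l.injEq] at ux uy; rw [ux.2, uy.2]
      · rw [Fact.l.injEq] at ux
        obtain ⟨rfl, rfl⟩ := ux
        exact absurd (hdp y uy) (by omega)
      · rw [Fact.l.injEq] at ux
        obtain ⟨rfl, rfl⟩ := ux
        exact absurd uy (hno y)
      · rw [Fact.l.injEq] at uy
        obtain ⟨rfl, rfl⟩ := uy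
        exact absurd (hdp x ux) (by omega)
      · exact h1.ok.fl β x y ux uy hxy
      · exact h1.ok.fl β x y ux (hnew β y uy (mem_ors ux)) hxy
      · rw [Fact.l.injEq] at uy
        obtain ⟨rfl, rfl⟩ := uy
        exact absurd ux (hno x)
      · exact h1.ok.fl β x y (hnew β x ux (mem_ors uy)) uy hxy
      · exact (hF (f ζ)).1.ok.fl β x y ux uy hxy
    · intro ν β i j hx _
      obtain ⟨_, _, h⟩ := bd_zero hbd hx
      exact absurd h (by simp)
    · intro β x hx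
      rcases (hmem _).1 hx with hx | hx | hx
      · rw [Fact.l.injEq] at hx
        obtain ⟨rfl, rfl⟩ := hx
        exact ⟨hα, hζ1⟩
      · exact h1.ok.ll β x hx
      · exact (hF (f ζ)).1.ok.ll β x hx
    · intro ν β i hx
      obtain ⟨_, _, h⟩ := bd_zero hbd hx
      exact absurd h (by simp)
  refine ⟨f ζ, ?_, hζ1, r, ⟨hok, ?_⟩, hbd, le_of_bd_zero hbd ?_, le_of_bd_zero hbd ?_, ?_⟩
  · exact lt_of_le_of_lt ((le_max_right _ _).trans (le_max_right _ _)) hζ2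
  · intro u hu
    obtain ⟨_, _, rfl⟩ := bd_zero hbd hu
    trivial
  · exact fun u hu => (hmem u).2 (Or.inr (Or.inl hu))
  · exact fun u hu => (hmem u).2 (Or.inr (Or.inr hu))
  · exact (hmem _).2 (Or.inl rfl)

end H9.PF
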