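import Pool.Agent.H85.Forcing.RO

/-!
# Interface between the combinatorial half and the forcing half

`Good P L`: what the forcing half may assume about the forcing notion `P` and the generic
ladder system `L` (`L α x` is the Boolean value of `x ∈ L_α`).
-/

open Ordinal

namespace H9.PF
open H85.Forcing H85.Forcing.RO

/-- limit elements of a linear order -/
def Lim {W : Type*} [LinearOrder W] (α : W) : Prop :=
  (∃ γ, γ < α) ∧ ∀ γ < α, ∃ δ < α, γ < δ

/-- the well-order of type `ω₁` -/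
abbrev W : Type := (ω₁ : Ordinal.{0}).ToType

/-- `f` is a name of a ladder system of finite type below every level: for limit `α` and `η < α`
it is dense to decide that the `α`-th set meets `η` in a particular finite set. -/
def LadF {P : Type} [Preorder P] (f : W → W → RO P) : Prop :=
  ∀ α, Lim α → ∀ η < α, ∀ p : P, ∃ q ≤ p, ∃ w : Finset W,
    ∀ x < η, (x ∈ w → q ∈ f α x) ∧ (x ∉ w → q ∈ (f α x)ᶜ)

structure Good (P : Type) [Preorder P] (L : W → W → RO P) : Prop where
  nonempty : Nonempty P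
  /-- the countable chain condition -/
  ccc : ∀ A : Set P, (∀ p ∈ A, ∀ q ∈ A, (∃ r, r ≤ p ∧ r ≤ q) → p = q) → A.Countable
  L_lt : ∀ (p : P) (α x : W), p ∈ L α x → x < α
  L_cof : ∀ α, Lim α → ∀ γ < α, ∀ p : P, ∃ q ≤ p, ∃ x, γ < x ∧ q ∈ L α x
  L_fin : LadF L
  /-- the generic ladder system meets every uncountable set -/
  hit : ∀ F : W → P × W, (∀ ξ, ξ < (F ξ).2) → ∀ g : W → W,
    ∃ α, Lim α ∧ (∀ γ < α, g γ < α) ∧ ∃ q : P, ∀ q' ≤ q, ∀ γ < α,
      ∃ ξ, γ < (F ξ).2 ∧ (F ξ).2 < α ∧ ∃ r ≤ q', r ≤ (F ξ).1 ∧ r ∈ L α (F ξ).2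
  /-- every ladder system has `ω` uncountable sets which it never meets simultaneously -/
  kill : ∀ f : W → W → RO P, LadF f → ∃ b : ℕ → W → RO P,
    (∀ (i : ℕ) (γ : W) (p : P), ∃ q ≤ p, ∃ x, γ < x ∧ q ∈ b i x) ∧
    ∀ α, Lim α → ∀ p : P, ∃ q ≤ p, ∃ i, ∃ γ < α, ∀ x, γ ≤ x → x < α → q ∈ (b i x ⊓ f α x)ᶜ

/-! ### closure properties of `W` -/

theorem countable_Iio (a : W) : (Set.Iio a).Countable := by
  have h1 := card_typein (r := ((· < ·) : W → W → Prop)) a
  have h2 : (typein (α := W) (· < ·) a).card < Cardinal.aleph 1 := by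
    rw [← Cardinal.lt_ord]
    have := typein_lt_type (α := W) (· < ·) a
    rw [type_toType] at this
    simpa using this
  rw [← Cardinal.le_aleph0_iff_set_countable, ← Cardinal.lt_aleph_one_iff]
  rw [h1] at h2
  exact h2

theorem exists_bound {s : Set W} (hs : s.Countable) : ∃ b : W, ∀ a ∈ s, a < b := by
  have hc : Countable s := hs.to_subtype
  have h := Ordinal.iSup_lt_omega_one (α := s)
    (f := fun x => Order.succ (x.1.toOrd : Ordinal)) (fun x => by
      have h0 : (x.1.toOrd : Ordinal) < ω₁ := x.1.toOrd.2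
      exact (Cardinal.isSuccLimit_omega 1).succ_lt h0)
  refine ⟨ToType.mk ⟨_, h⟩, fun a ha => ?_⟩
  have h2 : a = ToType.mk (a.toOrd) := by simp
  rw [h2, OrderIso.lt_iff_lt]
  change (a.toOrd : Ordinal) < _
  calc (a.toOrd : Ordinal) < Order.succ (a.toOrd : Ordinal) := Order.lt_succ _
    _ ≤ _ := Ordinal.le_iSup (fun x : s => Order.succ (x.1.toOrd : Ordinal)) ⟨a, ha⟩

end H9.PF
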