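import Pool.Agent.H85.Forcing.OSDefs

/-!
# The proxy principle `P⁻(κ, μ, R, θ, {κ}, ν)` inside a model of set theory

All notions are relativized to a structure `(M, E)`; `E x y` is read `x ∈ y`. `IsZFC`, `Rel`
(`(x, y) ∈ r`), `IsOrd`, `IsLim`, `IsSucc`, `IsFun`, `IsUncReg` and `IsClub` come from
`Pool.Agent.H85.Forcing.Defs` and `Pool.Agent.H85.Forcing.OSDefs`. Sequences of sets are coded by
sets of ordered pairs.
-/

namespace H9.PF

open H85.Forcing

variable {M : Type*} (E : M → M → Prop)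

/-- `a` is the supremum of the class `X` of ordinals: `a` is an ordinal, `y ≤ a` for all
`y ∈ X`, and no `b < a` has this property -/
def IsSupP (X : M → Prop) (a : M) : Prop :=
  IsOrd E a ∧ (∀ y, X y → E y a ∨ y = a) ∧ ∀ b, E b a → ∃ y, X y ∧ E b y

/-- `a = sup(C)`; in the notation of the problem `a = α_C` -/
def IsSup (C a : M) : Prop := IsSupP E (fun y => E y C) a

/-- `c ∈ acc(C)`: `c` is a limit point of `C` (that is `c > 0` and `sup(C ∩ c) = c`) and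
`c < sup(C)` -/
def InAcc (C c : M) : Prop :=
  (∃ b, E b c) ∧ (∀ b, E b c → ∃ y, E y C ∧ E y c ∧ E b y) ∧ ∃ y, E y C ∧ E c y

/-- `c ∈ nacc(C) = C \ acc(C)` -/
def InNacc (C c : M) : Prop := E c C ∧ ¬ InAcc E C c

/-- `C ∈ 𝒦(κ)` and `α_C = a`: `C` is a nonempty subset of `κ`, `a = sup(C) ∉ C`, and `C` is
closed below `a` -/
def InK (kap C a : M) : Prop :=
  (∃ y, E y C) ∧ (∀ y, E y C → E y kap) ∧ IsSup E C a ∧ ¬ E a C ∧ ∀ c, InAcc E C c → E c C

/-- `C ⊑ D`: `C = D ∩ α_C` -/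
def Sq (C D : M) : Prop := ∃ a, IsSup E C a ∧ ∀ x, E x C ↔ E x D ∧ E x a

/-- `C ⊑* D`: `C \ g = (D \ g) ∩ α_C` for some `g < α_C` -/
def SqStar (C D : M) : Prop :=
  ∃ a, IsSup E C a ∧ ∃ g, E g a ∧ ∀ x, x = g ∨ E g x → (E x C ↔ E x D ∧ E x a)

/-- `cf(a) < chi`: some function from some `b < chi` to `a` is cofinal in `a` -/
def CfLt (a chi : M) : Prop :=
  ∃ b, E b chi ∧ ∃ f, IsFun E f b a ∧ ∀ x, E x a → ∃ u, E u b ∧ ∃ v, Rel E f u v ∧ (E x v ∨ x = v)

/-- `otp(D) < chi`: some function `f` is an order isomorphism from `D` onto some `b < chi` -/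
def OtpLt (D chi : M) : Prop :=
  ∃ b, E b chi ∧ ∃ f, IsFun E f D b ∧ (∀ s, E s b → ∃ u, E u D ∧ Rel E f u s) ∧
    ∀ u, E u D → ∀ v, E v D → ∀ s t, Rel E f u s → Rel E f v t → E u v → E s t

/-- the relation `_χR`: `C R D` or `cf(α_C) < χ` -/
def LeftRel (R : M → M → Prop) (chi C D : M) : Prop :=
  R C D ∨ ∃ a, IsSup E C a ∧ CfLt E a chi

/-- the relation `R_χ`: `C R D`, or `otp(D) < χ` and all elements of `nacc(D)` are successor
ordinals -/
def RightRel (R : M → M → Prop) (chi C D : M) : Prop :=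
  R C D ∨ (OtpLt E D chi ∧ ∀ y, InNacc E D y → ∃ x, IsSucc E x y)

/-- the relation `^ΩR`: `C R D` and `α_C ∉ Ω` -/
def OmegaRel (R : M → M → Prop) (Om C D : M) : Prop :=
  R C D ∧ ∀ a, IsSup E C a → ¬ E a Om

/-- `|{C : (a, C) ∈ c}| < mu`: some function is injective on the set `{C : (a, C) ∈ c}`, with
values in some `b < mu` -/
def CardLt (c a mu : M) : Prop :=
  ∃ b, E b mu ∧ ∃ f,
    (∀ C, Rel E c a C → ∃ v, E v b ∧ Rel E f C v ∧ ∀ w, Rel E f C w → w = v) ∧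
    ∀ C D v, Rel E c a C → Rel E c a D → Rel E f C v → Rel E f D v → C = D

/-- the set `c` of ordered pairs codes a `(κ, μ, R)`-sequence `⟨𝒞_a : a < κ⟩`,
`𝒞_a = {C : (a, C) ∈ c}` -/
def IsSeq (kap mu : M) (R : M → M → Prop) (c : M) : Prop :=
  ∀ a, E a kap → IsLim E a →
    (∀ C, Rel E c a C → InK E kap C a) ∧ (∃ C, Rel E c a C) ∧ CardLt E c a mu ∧
    ∀ C, Rel E c a C → ∀ b, InAcc E C b → ∃ D, Rel E c b D ∧ R D C

/-- the class `S` (of elements of `κ`) is stationary in `κ` -/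
def StatIn (kap : M) (S : M → Prop) : Prop :=
  ∀ d, IsClub E kap d → ∃ a, E a kap ∧ E a d ∧ S a

/-- the set `b` of ordered pairs codes a sequence `⟨B_i : i < θ⟩` of cofinal subsets of `κ`,
`B_i = {y < κ : (i, y) ∈ b}` -/
def CofSeq (kap th b : M) : Prop :=
  ∀ i, E i th → ∀ x, E x kap → ∃ y, E y kap ∧ Rel E b i y ∧ E x y

/-- `P⁻(κ, μ, R, θ, {κ}, ν)` -/
def PMinus (kap mu : M) (R : M → M → Prop) (th nu : M) : Prop :=
  ∃ c, IsSeq E kap mu R c ∧ ∀ b, CofSeq E kap th b →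
    StatIn E kap fun a => CardLt E c a nu ∧ ∀ C, Rel E c a C → ∀ i, E i th → E i a →
      IsSupP E (fun y => InNacc E C y ∧ E y kap ∧ Rel E b i y) a

/-- `x` is a cardinal: an ordinal which is not the image of a smaller ordinal under a function -/
def IsCard (x : M) : Prop := IsOrd E x ∧ ∀ y, E y x → ¬ ∃ f, MapsOnto E f y x

/-- `x = 0`, the empty set -/
def IsZero (x : M) : Prop := ∀ z, ¬ E z x

/-- `x = 1 = {0}` -/
def IsOne (x : M) : Prop := ∃ z, IsZero E z ∧ IsSucc E z x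

/-- `x = 2 = {0, 1}` -/
def IsTwo (x : M) : Prop := ∃ z, IsOne E z ∧ IsSucc E z x

/-- `x = ω`: the least limit ordinal -/
def IsOm (x : M) : Prop := IsLim E x ∧ ∀ y, E y x → ¬ IsLim E y

end H9.PF
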