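import Pool.Agent.H9.PF.Basic

/-!
# Hereditary names and the order on finite conditions
-/

open Set

namespace H9.PF

/-- Hereditary names of ladder systems. For every `α`, `e` and every `k : ℕ` a name carries a
finite condition (given by `dl`, `m`, `kd`, `sub`) and a finite set `w α e k`; the condition is
meant to force that the `α`-th ladder meets `e` exactly in `w α e k`. -/
inductive Nm : Type
  | mk (dl : W → W → ℕ → Finset (W × W)) (w : W → W → ℕ → Finset W) (m : W → W → ℕ → ℕ)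
      (kd : (a e : W) → (k : ℕ) → Fin (m a e k) → (ℕ × W) ⊕ (W × ℕ))
      (sub : (a e : W) → (k : ℕ) → Fin (m a e k) → Nm) : Nm

/-- Atomic pieces of conditions: `l α x` puts `x` into the Cohen ladder at `α`; `b ν i x` puts `x`
into the `i`-th set of the coordinate `ν`; `s ν α i` promises that the `i`-th set of the
coordinate `ν` gets no further point of the `α`-th ladder of `ν`. -/
inductive Fact : Type
  | l (α x : W)
  | b (ν : Nm) (i : ℕ) (x : W)
  | s (ν : Nm) (α : W) (i : ℕ)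

noncomputable instance : DecidableEq Fact := Classical.decEq _

noncomputable instance : DecidableEq Nm := Classical.decEq _

/-- finite sets of facts -/
abbrev Cd : Type := Finset Fact

def mkFact : (ℕ × W) ⊕ (W × ℕ) → Nm → Fact
  | .inl (i, x), ν => .b ν i x
  | .inr (α, i), ν => .s ν α i

namespace Nm

def w : Nm → W → W → ℕ → Finset W
  | mk _ w _ _ _ => w

noncomputable def cond : Nm → W → W → ℕ → Cd
  | mk dl _ _ kd sub, a, e, k =>
    ((dl a e k).image fun t => Fact.l t.1 t.2) ∪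
      Finset.univ.image fun j => mkFact (kd a e k j) (sub a e k j)

end Nm

/-- `μ` is an immediate subname of `ν` -/
def Sub (μ : Nm) : Nm → Prop
  | .mk _ _ _ _ sub => ∃ a e k j, sub a e k j = μ

theorem wf_sub : WellFounded Sub := by
  refine ⟨fun ν => ?_⟩
  induction ν with
  | mk dl w m kd sub ih =>
    constructor
    rintro μ ⟨a, e, k, j, rfl⟩
    exact ih a e k j

instance : IsWellFounded Nm Sub := ⟨wf_sub⟩

/-- the name in a fact belongs to `A` -/
def Fact.In (A : Nm → Prop) : Fact → Prop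
  | .l _ _ => True
  | .b ν _ _ => A ν
  | .s ν _ _ => A ν

theorem Fact.In.mono {A B : Nm → Prop} (h : ∀ ν, A ν → B ν) {f : Fact} (hf : f.In A) : f.In B := by
  cases f with
  | l => trivial
  | b => exact h _ hf
  | s => exact h _ hf

theorem cond_in (ν : Nm) (a e : W) (k : ℕ) {f : Fact} (hf : f ∈ ν.cond a e k) :
    f.In (fun μ => Sub μ ν) := by
  cases ν with
  | mk dl w m kd sub =>
    rcases Finset.mem_union.1 hf with h | h
    · obtain ⟨t, -, rfl⟩ := Finset.mem_image.1 h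
      trivial
    · obtain ⟨j, -, rfl⟩ := Finset.mem_image.1 h
      rcases h1 : kd a e k j with ⟨i, x⟩ | ⟨α, i⟩
      · exact ⟨a, e, k, j, rfl⟩
      · exact ⟨a, e, k, j, rfl⟩

/-- every family of finite conditions and finite sets comes from a name -/
theorem exists_name (c : W → W → ℕ → Cd) (w : W → W → ℕ → Finset W) :
    ∃ ν : Nm, (∀ a e k, ν.cond a e k = c a e k) ∧ (∀ a e k, ν.w a e k = w a e k) ∧
      ∀ μ, Sub μ ν → ∃ a e k, ∃ f ∈ c a e k, ¬ f.In (fun ρ => ρ ≠ μ) := by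
  have h : ∀ c : Cd, ∃ (dl : Finset (W × W)) (m : ℕ) (kd : Fin m → (ℕ × W) ⊕ (W × ℕ))
      (sub : Fin m → Nm), ((dl.image fun t => Fact.l t.1 t.2) ∪
        Finset.univ.image fun j => mkFact (kd j) (sub j)) = c ∧
        ∀ j, ∃ f ∈ c, ¬ f.In (fun ρ => ρ ≠ sub j) := by
    intro c
    induction c using Finset.induction_on with
    | empty => exact ⟨∅, 0, Fin.elim0, Fin.elim0, by simp, fun j => j.elim0⟩
    | insert f c _ ih =>
      obtain ⟨dl, m, kd, sub, h, h'⟩ := ih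
      have aux : ∀ (kk : (ℕ × W) ⊕ (W × ℕ)) (ν : Nm), mkFact kk ν = f →
          (¬ f.In (fun ρ => ρ ≠ ν)) →
          ∃ (dl : Finset (W × W)) (m : ℕ) (kd : Fin m → (ℕ × W) ⊕ (W × ℕ))
            (sub : Fin m → Nm), ((dl.image fun t => Fact.l t.1 t.2) ∪
            Finset.univ.image fun j => mkFact (kd j) (sub j)) = insert f c ∧
            ∀ j, ∃ g ∈ insert f c, ¬ g.In (fun ρ => ρ ≠ sub j) := by
        intro kk ν e1 e2
        refine ⟨dl, m + 1, Fin.cons kk kd, Fin.cons ν sub, ?_, ?_⟩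
        · ext g
          rw [← h]
          simp only [Finset.mem_union, Finset.mem_image, Finset.mem_insert, Finset.mem_univ,
            true_and, Fin.exists_fin_succ, Fin.cons_zero, Fin.cons_succ, e1]
          rw [@eq_comm _ g f]
          exact or_left_comm
        · intro j
          refine Fin.cases ?_ (fun j => ?_) j
          · exact ⟨f, Finset.mem_insert_self _ _, by simpa using e2⟩
          · obtain ⟨g, hg, h2⟩ := h' j
            exact ⟨g, Finset.mem_insert_of_mem hg, by simpa using h2⟩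
      cases f with
      | l α x =>
        refine ⟨insert (α, x) dl, m, kd, sub, ?_, fun j => ?_⟩
        · rw [Finset.image_insert, Finset.insert_union, h]
        · obtain ⟨g, hg, h2⟩ := h' j
          exact ⟨g, Finset.mem_insert_of_mem hg, h2⟩
      | b ν i x => exact aux (.inl (i, x)) ν rfl (fun h => h rfl)
      | s ν α i => exact aux (.inr (α, i)) ν rfl (fun h => h rfl)
  choose dl m kd sub h1 h2 using h
  refine ⟨.mk (fun a e k => dl (c a e k)) w (fun a e k => m (c a e k))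
    (fun a e k => kd (c a e k)) (fun a e k => sub (c a e k)), fun a e k => h1 _,
    fun _ _ _ => rfl, ?_⟩
  rintro μ ⟨a, e, k, j, rfl⟩
  obtain ⟨f, hf, h3⟩ := h2 (c a e k) j
  exact ⟨a, e, k, f, hf, h3⟩

/-! ### the order -/

/-- `Le q p`: `q` is stronger than `p`. It contains the facts of `p`, and if `p` has promised
`s ν α i`, then `q` has a new point `x < α` in the `i`-th set of `ν` only if `q` is stronger than
a condition that decides (according to the name `ν`) that `x` is not in the `α`-th ladder. -/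
inductive Le (q : Cd) : Cd → Prop
  | mk (p : Cd) (h1 : p ⊆ q) (e : Nm → W → ℕ → W → W) (k : Nm → W → ℕ → W → ℕ)
      (h2 : ∀ ν α i x, Fact.s ν α i ∈ p → Fact.b ν i x ∈ q → Fact.b ν i x ∉ p → x < α →
        x < e ν α i x ∧ e ν α i x < α ∧ x ∉ ν.w α (e ν α i x) (k ν α i x))
      (h3 : ∀ ν α i x, Fact.s ν α i ∈ p → Fact.b ν i x ∈ q → Fact.b ν i x ∉ p → x < α →
        Le q (ν.cond α (e ν α i x) (k ν α i x))) : Le q p

/-- `q` decides, according to the name `ν`, that `x` is not in the `α`-th ladder -/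
def Out (q : Cd) (ν : Nm) (α x : W) : Prop :=
  ∃ e k, x < e ∧ e < α ∧ x ∉ ν.w α e k ∧ Le q (ν.cond α e k)

theorem Le.intro {q p : Cd} (h1 : p ⊆ q)
    (h : ∀ ν α i x, Fact.s ν α i ∈ p → Fact.b ν i x ∈ q → Fact.b ν i x ∉ p → x < α →
      Out q ν α x) : Le q p := by
  classical
  have h' : ∀ ν α i x, ∃ ek : W × ℕ, Fact.s ν α i ∈ p → Fact.b ν i x ∈ q →
      Fact.b ν i x ∉ p → x < α →
      x < ek.1 ∧ ek.1 < α ∧ x ∉ ν.w α ek.1 ek.2 ∧ Le q (ν.cond α ek.1 ek.2) := by
    intro ν α i x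
    by_cases hh : Fact.s ν α i ∈ p ∧ Fact.b ν i x ∈ q ∧ Fact.b ν i x ∉ p ∧ x < α
    · obtain ⟨e, k, h1, h2, h3, h4⟩ := h ν α i x hh.1 hh.2.1 hh.2.2.1 hh.2.2.2
      exact ⟨(e, k), fun _ _ _ _ => ⟨h1, h2, h3, h4⟩⟩
    · exact ⟨(x, 0), fun a b c d => absurd ⟨a, b, c, d⟩ hh⟩
  choose ek hek using h'
  refine Le.mk p h1 (fun ν α i x => (ek ν α i x).1) (fun ν α i x => (ek ν α i x).2) ?_ ?_
  · intro ν α i x a b c d
    obtain ⟨g1, g2, g3, -⟩ := hek ν α i x a b c d
    exact ⟨g1, g2, g3⟩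
  · intro ν α i x a b c d
    exact (hek ν α i x a b c d).2.2.2

theorem Le.sub {q p : Cd} (h : Le q p) : p ⊆ q := by cases h; assumption

theorem Le.out {q p : Cd} (h : Le q p) {ν : Nm} {α : W} {i : ℕ} {x : W}
    (h1 : Fact.s ν α i ∈ p) (h2 : Fact.b ν i x ∈ q) (h3 : Fact.b ν i x ∉ p) (h4 : x < α) :
    Out q ν α x := by
  cases h with
  | mk _ g1 e k g2 g3 =>
    obtain ⟨a, b, c⟩ := g2 ν α i x h1 h2 h3 h4
    exact ⟨_, _, a, b, c, g3 ν α i x h1 h2 h3 h4⟩

/-- induction on the derivation of `Le q p` -/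
theorem Le.ind {q : Cd} {C : Cd → Prop}
    (h : ∀ p, p ⊆ q → (∀ ν α i x, Fact.s ν α i ∈ p → Fact.b ν i x ∈ q → Fact.b ν i x ∉ p →
      x < α → ∃ e k, x < e ∧ e < α ∧ x ∉ ν.w α e k ∧ C (ν.cond α e k)) → C p) :
    ∀ {p}, Le q p → C p := by
  intro p hp
  induction hp with
  | mk p h1 e k h2 h3 ih =>
    refine h p h1 fun ν α i x a b c d => ?_
    obtain ⟨g1, g2, g3⟩ := h2 ν α i x a b c d
    exact ⟨_, _, g1, g2, g3, ih ν α i x a b c d⟩

theorem Le.refl (p : Cd) : Le p p := Le.intro subset_rfl fun _ _ _ _ _ h h' => absurd h h'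

theorem Le.trans {r q p : Cd} (h : Le r q) (h' : Le q p) : Le r p := by
  refine Le.ind (C := fun p => Le r p) (fun p hp ih => ?_) h'
  refine Le.intro (hp.trans h.sub) fun ν α i x h1 h2 h3 h4 => ?_
  by_cases hb : Fact.b ν i x ∈ q
  · exact ih ν α i x h1 hb h3 h4
  · exact h.out (hp h1) h2 hb h4

theorem Out.mono {r q : Cd} (h : Le r q) {ν : Nm} {α x : W} (h' : Out q ν α x) : Out r ν α x := by
  obtain ⟨e, k, h1, h2, h3, h4⟩ := h'
  exact ⟨e, k, h1, h2, h3, h.trans h4⟩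

theorem Le.empty (q : Cd) : Le q ∅ := Le.intro (Finset.empty_subset _) (by simp)

/-- adding facts of a kind that is never restricted -/
theorem Le.of_no_new {q p : Cd} (h1 : p ⊆ q)
    (h : ∀ ν i x, Fact.b ν i x ∈ q → Fact.b ν i x ∈ p) : Le q p :=
  Le.intro h1 fun _ _ _ _ _ h2 h3 => absurd (h _ _ _ h2) h3

/-! ### restriction -/

/-- sets of names closed under subnames -/
def Closed (A : Nm → Prop) : Prop := ∀ ν μ, A ν → Sub μ ν → A μ

open Classical in
/-- restriction of a condition to the coordinates in `A` -/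
noncomputable def res (A : Nm → Prop) (p : Cd) : Cd := p.filter (fun f => f.In A)

theorem mem_res {A : Nm → Prop} {p : Cd} {f : Fact} : f ∈ res A p ↔ f ∈ p ∧ f.In A := by
  classical
  unfold res
  rw [Finset.mem_filter]

theorem res_sub (A : Nm → Prop) (p : Cd) : res A p ⊆ p := fun _ h => (mem_res.1 h).1

theorem res_in {A : Nm → Prop} {p : Cd} : ∀ f ∈ res A p, f.In A := fun _ h => (mem_res.1 h).2

theorem res_eq {A : Nm → Prop} {p : Cd} (h : ∀ f ∈ p, f.In A) : res A p = p := by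
  ext f
  rw [mem_res]
  exact ⟨fun h => h.1, fun hf => ⟨hf, h f hf⟩⟩

theorem res_cond {A : Nm → Prop} (hA : Closed A) {ν : Nm} (hν : A ν) (a e : W) (k : ℕ) :
    res A (ν.cond a e k) = ν.cond a e k :=
  res_eq fun _ hf => (cond_in ν a e k hf).mono fun μ hμ => hA ν μ hν hμ

theorem Le.res {A : Nm → Prop} (hA : Closed A) {q p : Cd} (h : Le q p) :
    Le (res A q) (res A p) := by
  refine Le.ind (C := fun p => Le (PF.res A q) (PF.res A p)) (fun p hp ih => ?_) h
  refine Le.intro (fun f hf => mem_res.2 ⟨hp (mem_res.1 hf).1, (mem_res.1 hf).2⟩) ?_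
  intro ν α i x h1 h2 h3 h4
  obtain ⟨g1, g2⟩ := mem_res.1 h1
  have hν : A ν := g2
  have g3 : Fact.b ν i x ∉ p := fun h => h3 (mem_res.2 ⟨h, hν⟩)
  obtain ⟨e, k, k1, k2, k3, k4⟩ := ih ν α i x g1 (mem_res.1 h2).1 g3 h4
  rw [res_cond hA hν] at k4
  exact ⟨e, k, k1, k2, k3, k4⟩

/-- amalgamation of a condition with an extension of its restriction -/
theorem Le.union {A : Nm → Prop} {r p : Cd} (h : Le r (PF.res A p)) (hr : ∀ f ∈ r, f.In A) :
    Le (r ∪ p) r ∧ Le (r ∪ p) p := by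
  have h0 : Le (r ∪ p) r := by
    refine Le.intro Finset.subset_union_left fun ν α i x h1 h2 h3 _ => ?_
    rcases Finset.mem_union.1 h2 with h2 | h2
    · exact absurd h2 h3
    · have hν : A ν := hr _ h1
      exact absurd (h.sub (mem_res.2 ⟨h2, hν⟩)) h3
  refine ⟨h0, Le.intro Finset.subset_union_right fun ν α i x h1 h2 h3 h4 => ?_⟩
  rcases Finset.mem_union.1 h2 with h2 | h2
  · have hν : A ν := hr _ h2
    have h5 : Fact.s ν α i ∈ PF.res A p := mem_res.2 ⟨h1, hν⟩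
    have h6 : Fact.b ν i x ∉ PF.res A p := fun h => h3 (mem_res.1 h).1
    exact (h.out h5 h2 h6 h4).mono h0
  · exact absurd h2 h3

/-! ### conditions -/

/-- consistency of the finite information -/
structure Ok (p : Cd) : Prop where
  fl : ∀ α x y, Fact.l α x ∈ p → Fact.l α y ∈ p → dp α x = dp α y → x = y
  fs : ∀ ν α i j, Fact.s ν α i ∈ p → Fact.s ν α j ∈ p → i = j
  ll : ∀ α x, Fact.l α x ∈ p → Lim α ∧ x < α
  ls : ∀ ν α i, Fact.s ν α i ∈ p → Lim α

theorem Ok.mono {p q : Cd} (h : Ok q) (hpq : p ⊆ q) : Ok p :=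
  ⟨fun α x y h1 h2 => h.fl α x y (hpq h1) (hpq h2), fun ν α i j h1 h2 =>
    h.fs ν α i j (hpq h1) (hpq h2), fun α x h1 => h.ll α x (hpq h1),
    fun ν α i h1 => h.ls ν α i (hpq h1)⟩

/-- proper subnames -/
def tc (ν μ : Nm) : Prop := Relation.TransGen Sub μ ν

theorem closed_tc (ν : Nm) : Closed (tc ν) := fun _ _ h h' => Relation.TransGen.head h' h

theorem tc_of_sub {μ ν : Nm} (h : Sub μ ν) : tc ν μ := Relation.TransGen.single h

/-- all levels of all ladders can be decided -/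
def Dense (ν : Nm) : Prop :=
  ∀ α, Lim α → ∀ e < α, ∀ q, Ok q → (∀ f ∈ q, f.In (tc ν)) →
    ∃ q', Ok q' ∧ (∀ f ∈ q', f.In (tc ν)) ∧ Le q' q ∧ ∃ k, Le q' (ν.cond α e k)

/-- decisions are consistent -/
def Cons (ν : Nm) : Prop :=
  ∀ α, Lim α → ∀ e < α, ∀ e' < α, ∀ k k' q, Ok q → (∀ f ∈ q, f.In (tc ν)) →
    Le q (ν.cond α e k) → Le q (ν.cond α e' k') → ∀ x, x < e → x < e' →
    (x ∈ ν.w α e k ↔ x ∈ ν.w α e' k')

/-- hereditarily good names -/
def HG (ν : Nm) : Prop := ∀ μ, μ = ν ∨ tc ν μ → Dense μ ∧ Cons μ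

theorem HG.sub {ν μ : Nm} (h : HG ν) (hμ : tc ν μ) : HG μ := by
  rintro ρ (rfl | hρ)
  · exact h _ (Or.inr hμ)
  · exact h _ (Or.inr (Relation.TransGen.trans hρ hμ))

/-- the conditions -/
structure Cnd (p : Cd) : Prop where
  ok : Ok p
  hg : ∀ f ∈ p, f.In HG

theorem Cnd.mono {p q : Cd} (h : Cnd q) (hpq : p ⊆ q) : Cnd p :=
  ⟨h.ok.mono hpq, fun f hf => h.hg f (hpq hf)⟩

theorem Cnd.res {p : Cd} (h : Cnd p) (A : Nm → Prop) : Cnd (res A p) := h.mono (res_sub A p)

theorem cnd_of_tc {ν : Nm} (hν : HG ν) {q : Cd} (h : Ok q) (h' : ∀ f ∈ q, f.In (tc ν)) : Cnd q :=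
  ⟨h, fun f hf => (h' f hf).mono fun _ hμ => hν.sub hμ⟩

theorem Cnd.empty : Cnd ∅ := ⟨⟨by simp, by simp, by simp, by simp⟩, by simp⟩

/-- the union in `Le.union` is a condition -/
theorem Cnd.union {A : Nm → Prop} {r p : Cd} (hr : Cnd r) (hp : Cnd p) (h : PF.res A p ⊆ r)
    (hA : ∀ f ∈ r, f.In A) : Cnd (r ∪ p) := by
  have key : ∀ f ∈ p, f.In A → f ∈ r := fun f hf hA => h (mem_res.2 ⟨hf, hA⟩)
  refine ⟨⟨?_, ?_, ?_, ?_⟩, ?_⟩
  · intro α x y h1 h2 h3
    have h1' : Fact.l α x ∈ r := (Finset.mem_union.1 h1).elim id fun h => key _ h trivial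
    have h2' : Fact.l α y ∈ r := (Finset.mem_union.1 h2).elim id fun h => key _ h trivial
    exact hr.ok.fl α x y h1' h2' h3
  · intro ν α i j h1 h2
    rcases Finset.mem_union.1 h1 with h1 | h1
    · have hν : A ν := hA _ h1
      have h2' : Fact.s ν α j ∈ r := (Finset.mem_union.1 h2).elim id fun h => key _ h hν
      exact hr.ok.fs ν α i j h1 h2'
    · rcases Finset.mem_union.1 h2 with h2 | h2
      · have hν : A ν := hA _ h2
        exact hr.ok.fs ν α i j (key _ h1 hν) h2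
      · exact hp.ok.fs ν α i j h1 h2
  · intro α x h1
    exact (Finset.mem_union.1 h1).elim (hr.ok.ll α x) (hp.ok.ll α x)
  · intro ν α i h1
    exact (Finset.mem_union.1 h1).elim (hr.ok.ls ν α i) (hp.ok.ls ν α i)
  · intro f hf
    exact (Finset.mem_union.1 hf).elim (hr.hg f) (hp.hg f)

theorem exists_decide {ν : Nm} (hν : HG ν) {α e : W} (hα : Lim α) (he : e < α) {p : Cd}
    (hp : Cnd p) : ∃ q, Cnd q ∧ Le q p ∧ (∃ k, Le q (ν.cond α e k)) ∧
      ∀ f ∈ q, f ∈ p ∨ f.In (tc ν) := by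
  obtain ⟨r, h1, h2, h3, k, h4⟩ := (hν ν (Or.inl rfl)).1 α hα e he (PF.res (tc ν) p)
    (hp.ok.mono (res_sub _ _)) res_in
  obtain ⟨g1, g2⟩ := h3.union h2
  refine ⟨r ∪ p, (cnd_of_tc hν h1 h2).union hp h3.sub h2, g2, ⟨k, g1.trans h4⟩, fun f hf => ?_⟩
  exact (Finset.mem_union.1 hf).elim (fun h => Or.inr (h2 f h)) Or.inl

theorem consist {ν : Nm} (hν : HG ν) {α e e' : W} (hα : Lim α) (he : e < α) (he' : e' < α)
    {k k' : ℕ} {q : Cd} (hq : Cnd q) (h1 : Le q (ν.cond α e k)) (h2 : Le q (ν.cond α e' k'))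
    {x : W} (hx : x < e) (hx' : x < e') : x ∈ ν.w α e k ↔ x ∈ ν.w α e' k' := by
  have g : ∀ e k, res (tc ν) (ν.cond α e k) = ν.cond α e k := fun e k =>
    res_eq fun f hf => (cond_in ν α e k hf).mono fun μ hμ => tc_of_sub hμ
  have h1' := h1.res (closed_tc ν)
  have h2' := h2.res (closed_tc ν)
  rw [g] at h1' h2'
  exact (hν ν (Or.inl rfl)).2 α hα e he e' he' k k' _ (hq.ok.mono (res_sub _ _)) res_in h1' h2'
    x hx hx'

/-! ### ranks -/

/-- the rank of a name -/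
noncomputable def rk (ν : Nm) : Ordinal.{0} := IsWellFounded.rank Sub ν

theorem rk_lt_of_sub {μ ν : Nm} (h : Sub μ ν) : rk μ < rk ν := IsWellFounded.rank_lt_of_rel h

theorem rk_lt_of_tc {μ ν : Nm} (h : tc ν μ) : rk μ < rk ν := by
  induction h with
  | single h => exact rk_lt_of_sub h
  | tail _ h ih => exact ih.trans (rk_lt_of_sub h)

/-- names of rank below `τ` -/
def Bel (τ : Ordinal.{0}) (ν : Nm) : Prop := rk ν < τ

theorem closed_bel (τ : Ordinal.{0}) : Closed (Bel τ) := fun _ _ h h' =>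
  lt_trans (rk_lt_of_sub h') h

/-- all names in `p` have rank below `τ` -/
def Bd (τ : Ordinal.{0}) (p : Cd) : Prop := ∀ f ∈ p, f.In (Bel τ)

theorem Bd.mono {σ τ : Ordinal.{0}} (h : σ ≤ τ) {p : Cd} (hp : Bd σ p) : Bd τ p :=
  fun f hf => (hp f hf).mono fun _ hν => lt_of_lt_of_le hν h

theorem bd_res (τ : Ordinal.{0}) (p : Cd) : Bd τ (res (Bel τ) p) := res_in

/-- deciding finitely many levels of ladders -/
theorem exists_decide_all {σ : Ordinal.{0}} (T : Finset (Nm × W × W))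
    (hT : ∀ t ∈ T, HG t.1 ∧ rk t.1 ≤ σ ∧ Lim t.2.1 ∧ t.2.2 < t.2.1) {p : Cd} (hp : Cnd p)
    (hσ : Bd σ p) : ∃ q, Cnd q ∧ Bd σ q ∧ Le q p ∧ ∀ t ∈ T, ∃ k, Le q (t.1.cond t.2.1 t.2.2 k) := by
  classical
  induction T using Finset.induction_on with
  | empty => exact ⟨p, hp, hσ, Le.refl p, by simp⟩
  | insert t T _ ih =>
    obtain ⟨q, h1, h2, h3, h4⟩ := ih fun t ht => hT t (Finset.mem_insert_of_mem ht)
    obtain ⟨g1, g2, g3, g4⟩ := hT t (Finset.mem_insert_self _ _)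
    obtain ⟨r, k1, k2, ⟨k, k3⟩, k4⟩ := exists_decide g1 g3 g4 h1
    refine ⟨r, k1, fun f hf => ?_, k2.trans h3, fun u hu => ?_⟩
    · rcases k4 f hf with h | h
      · exact h2 f h
      · exact h.mono fun μ hμ => lt_of_lt_of_le (rk_lt_of_tc hμ) g2
    · rcases Finset.mem_insert.1 hu with rfl | hu
      · exact ⟨k, k3⟩
      · obtain ⟨k', h5⟩ := h4 u hu
        exact ⟨k', k2.trans h5⟩

end H9.PF
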