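import Pool.Agent.H9.PF.Poset

/-!
# Thinning out a sequence of conditions
-/

open Set

namespace H9.PF

/-- the ordinal in a fact -/
def Fact.ord : Fact → W
  | .l α _ => α
  | .b _ _ x => x
  | .s _ α _ => α

/-- the index in a fact -/
def Fact.idx : Fact → ℕ
  | .l _ _ => 0
  | .b _ i _ => i
  | .s _ _ i => i

/-- the name in a fact -/
noncomputable def Fact.nms : Fact → Finset Nm
  | .l _ _ => ∅
  | .b ν _ _ => {ν}
  | .s ν _ _ => {ν}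

/-- the names in a condition -/
noncomputable def nms (p : Cd) : Finset Nm := p.biUnion Fact.nms

theorem mem_nms_b {p : Cd} {ν : Nm} {i : ℕ} {x : W} (h : Fact.b ν i x ∈ p) : ν ∈ nms p :=
  Finset.mem_biUnion.2 ⟨_, h, Finset.mem_singleton_self ν⟩

theorem mem_nms_s {p : Cd} {ν : Nm} {i : ℕ} {x : W} (h : Fact.s ν x i ∈ p) : ν ∈ nms p :=
  Finset.mem_biUnion.2 ⟨_, h, Finset.mem_singleton_self ν⟩

theorem of_mem_nms {p : Cd} {ν : Nm} (h : ν ∈ nms p) {A : Nm → Prop} (hp : ∀ f ∈ p, f.In A) :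
    A ν := by
  obtain ⟨f, hf, h⟩ := Finset.mem_biUnion.1 h
  have := hp f hf
  cases f with
  | l => simp [Fact.nms] at h
  | b μ i x =>
    have h' : ν = μ := Finset.mem_singleton.1 h
    subst h'; exact this
  | s μ i x =>
    have h' : ν = μ := Finset.mem_singleton.1 h
    subst h'; exact this

/-- the ordinals in a condition -/
noncomputable def ors (p : Cd) : Finset W := p.image Fact.ord

theorem mem_ors {p : Cd} {f : Fact} (h : f ∈ p) : f.ord ∈ ors p := Finset.mem_image_of_mem _ h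

/-- the promises in a condition -/
noncomputable def Fact.prm : Fact → Finset (Nm × W × ℕ)
  | .l _ _ => ∅
  | .b _ _ _ => ∅
  | .s ν α i => {(ν, α, i)}

noncomputable def prms (p : Cd) : Finset (Nm × W × ℕ) := by
  classical exact p.biUnion Fact.prm

theorem mem_prms {p : Cd} {ν : Nm} {α : W} {i : ℕ} :
    (ν, α, i) ∈ prms p ↔ Fact.s ν α i ∈ p := by
  classical
  unfold prms
  rw [Finset.mem_biUnion]
  constructor
  · rintro ⟨f, hf, h⟩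
    cases f with
    | l => simp [Fact.prm] at h
    | b => simp [Fact.prm] at h
    | s μ β j =>
      have h' := Finset.mem_singleton.1 h
      obtain ⟨rfl, h''⟩ := Prod.ext_iff.1 h'
      obtain ⟨h1, h2⟩ := Prod.ext_iff.1 h''
      simp only at h1 h2
      subst h1; subst h2; exact hf
  · intro h
    exact ⟨_, h, Finset.mem_singleton_self _⟩

/-- increasing choices -/
theorem choose_mono (Q : W → W → Prop) (h : ∀ ζ γ, ∃ ξ, γ < ξ ∧ Q ζ ξ) :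
    ∃ f : W → W, StrictMono f ∧ ∀ ζ, ζ < f ζ ∧ Q ζ (f ζ) := by
  have hb : ∀ (ζ : W) (ih : ∀ j, j < ζ → W), ∃ γ : W, ζ < γ ∧ ∀ j (hj : j < ζ), ih j hj < γ := by
    intro ζ ih
    have : Countable (Iio ζ) := (countable_Iio ζ).to_subtype
    obtain ⟨b, hb⟩ := exists_bound ((countable_range (fun j : Iio ζ => ih j.1 j.2)).union
      (countable_singleton ζ))
    exact ⟨b, hb ζ (Or.inr rfl), fun j hj => hb _ (Or.inl ⟨⟨j, hj⟩, rfl⟩)⟩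
  choose bd hbd1 hbd2 using hb
  choose nx hnx1 hnx2 using h
  let f : W → W := WellFoundedLT.fix fun ζ ih => nx ζ (bd ζ ih)
  have hf : ∀ ζ, f ζ = nx ζ (bd ζ fun j _ => f j) := fun ζ => WellFoundedLT.fix_eq _ ζ
  refine ⟨f, fun j ζ hj => ?_, fun ζ => ⟨?_, ?_⟩⟩
  · rw [hf ζ]
    exact (hbd2 ζ (fun j _ => f j) j hj).trans (hnx1 _ _)
  · rw [hf ζ]
    exact (hbd1 ζ _).trans (hnx1 _ _)
  · rw [hf ζ]
    exact hnx2 _ _

/-- `p1 ξ` decides that the `β`-th ladder of `ν` and `v` agree below `ξ` -/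
def DecAt (p1 : W → Cd) (ξ : W) (ν : Nm) (β : W) (v : Finset W) : Prop :=
  ∃ e k, ξ < e ∧ e < β ∧ Le (p1 ξ) (ν.cond β e k) ∧ ∀ x < ξ, (x ∈ ν.w β e k ↔ x ∈ v)

/-- A thinned out sequence `p` of conditions of rank below `τ`, with root `D` (names), and
extensions `p1` of their parts of rank below `σ`. -/
structure Data (σ τ : Ordinal.{0}) (D : Finset Nm) (R R2 : Finset W) (N : ℕ) (p p1 : W → Cd)
    (X : W → W) : Prop where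
  cnd : ∀ ξ, Cnd (p ξ)
  bd : ∀ ξ, Bd τ (p ξ)
  lt : ∀ ξ, ξ < X ξ
  dis : ∀ ξ ζ, ξ ≠ ζ → ∀ ν ∈ nms (p ξ), ν ∈ nms (p ζ) → ν ∈ D
  Dhg : ∀ ν ∈ D, HG ν
  Dle : ∀ ν ∈ D, rk ν ≤ σ
  ordb : ∀ ξ ν i x, ν ∈ D → rk ν = σ → Fact.b ν i x ∈ p ξ → x ∈ R ∨ ξ < x
  ords : ∀ ξ ν α i, ν ∈ D → rk ν = σ → Fact.s ν α i ∈ p ξ → α ∈ R ∨ ξ < α
  trb : ∀ ξ ζ ν i x, ν ∈ D → rk ν = σ → x ∈ R → Fact.b ν i x ∈ p ξ → Fact.b ν i x ∈ p ζ
  trs : ∀ ξ ζ ν α i, ν ∈ D → rk ν = σ → α ∈ R → Fact.s ν α i ∈ p ξ → Fact.s ν α i ∈ p ζ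
  idx : ∀ ξ ν i x, Fact.b ν i x ∈ p ξ → i < N
  cnd1 : ∀ ξ, Cnd (p1 ξ)
  bd1 : ∀ ξ, Bd σ (p1 ξ)
  le1 : ∀ ξ, Le (p1 ξ) (res (Bel σ) (p ξ))
  dec : ∀ ξ ν β i, ν ∈ D → rk ν = σ → Fact.s ν β i ∈ p ξ → β ∉ R → ∃ v : Finset W, v ⊆ R2 ∧
    DecAt p1 ξ ν β v ∧ ∀ ζ, ∃ β', Fact.s ν β' i ∈ p ζ ∧ β' ∉ R ∧ DecAt p1 ζ ν β' v

open Classical in
theorem prep {τ : Ordinal.{0}} (hτ : 0 < τ) (F : W → Cd × W)
    (hF : ∀ ξ, Cnd (F ξ).1 ∧ Bd τ (F ξ).1 ∧ ξ < (F ξ).2) :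
    ∃ σ < τ, ∃ D R R2 N p p1 X, Data σ τ D R R2 N p p1 X ∧
      ∃ f : W → W, ∀ ζ, p ζ = (F (f ζ)).1 ∧ X ζ = (F (f ζ)).2 := by
  -- the root of the names
  obtain ⟨D, U1, -, hU1, hD1, hD2⟩ := delta (fun ξ => nms (F ξ).1) unb_univ
  obtain ⟨ξ0, hξ0, -⟩ := hU1 (Classical.arbitrary W)
  have hDhg : ∀ ν ∈ D, HG ν := fun ν hν => of_mem_nms (hD1 ξ0 hξ0 hν) (hF ξ0).1.hg
  have hDτ : ∀ ν ∈ D, rk ν < τ := fun ν hν => of_mem_nms (hD1 ξ0 hξ0 hν) (hF ξ0).2.1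
  set σ : Ordinal.{0} := D.sup rk with hσ
  have hDσ : ∀ ν ∈ D, rk ν ≤ σ := fun ν hν => Finset.le_sup hν
  have hστ : σ < τ := (Finset.sup_lt_iff (by simpa using hτ)).2 hDτ
  -- the root of the ordinals
  obtain ⟨R, U2, hU21, hU2, -, hR2⟩ := delta (fun ξ => ors (F ξ).1) hU1
  obtain ⟨U3, hU32, hU3, hN⟩ := pigeon' hU2 (fun ξ => (F ξ).1.sup Fact.idx)
  -- the trace on the roots
  let TR : Set Fact := {f | ∃ ν ∈ D, ∃ x ∈ R, ∃ i, f = Fact.b ν i x ∨ f = Fact.s ν x i}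
  have hTR : TR.Countable := by
    have : TR ⊆ ⋃ ν ∈ (D : Set Nm), ⋃ x ∈ (R : Set W),
        (range (fun i => Fact.b ν i x) ∪ range (fun i => Fact.s ν x i)) := by
      rintro f ⟨ν, hν, x, hx, i, h⟩
      refine mem_biUnion hν (mem_biUnion hx ?_)
      rcases h with h | h
      · exact Or.inl ⟨i, h.symm⟩
      · exact Or.inr ⟨i, h.symm⟩
    refine Countable.mono this ?_
    refine D.finite_toSet.countable.biUnion fun ν _ => R.finite_toSet.countable.biUnion fun x _ => ?_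
    exact (countable_range _).union (countable_range _)
  obtain ⟨U4, hU43, hU4, htr⟩ := pigeon hU3 (fun ξ => (F ξ).1.filter (fun f => f ∈ TR))
    ((countable_finsets hTR).mono (by
      rintro _ ⟨ξ, -, rfl⟩ f hf
      exact (Finset.mem_filter.1 hf).2))
  -- first reindexing
  obtain ⟨f1, hf1m, hf1⟩ := choose_mono (fun ζ ξ => ξ ∈ U4 ∧ ∀ x ∈ ors (F ξ).1, x ∈ R ∨ ζ < x) (by
    intro ζ γ
    have hc : (⋃ x ∈ {x : W | x ≤ ζ}, {ξ ∈ U4 | x ∉ R ∧ x ∈ ors (F ξ).1}).Countable := by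
      refine (countable_of_bdd (γ := ζ) fun x hx => hx).biUnion fun x _ => ?_
      refine Set.Subsingleton.countable fun ξ hξ ξ' hξ' => ?_
      by_contra hne
      exact hξ.2.1 (hR2 ξ (hU32 (hU43 hξ.1)) ξ' (hU32 (hU43 hξ'.1)) hne x hξ.2.2 hξ'.2.2)
    obtain ⟨b, hb⟩ := exists_bound (hc.union (countable_singleton γ))
    obtain ⟨ξ, hξ, hbξ⟩ := hU4 b
    refine ⟨ξ, (hb γ (Or.inr rfl)).trans hbξ, hξ, fun x hx => ?_⟩
    by_contra hcon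
    push Not at hcon
    refine lt_asymm hbξ (hb ξ (Or.inl ?_))
    exact mem_biUnion (show x ∈ {x : W | x ≤ ζ} from hcon.2) ⟨hξ, hcon.1, hx⟩)
  have hU : ∀ ζ, f1 ζ ∈ U4 := fun ζ => (hf1 ζ).2.1
  have hcnd : ∀ ζ, Cnd (F (f1 ζ)).1 := fun ζ => (hF _).1
  -- decisions
  have hdec : ∀ ζ, ∃ q, Cnd q ∧ Bd σ q ∧ Le q (res (Bel σ) (F (f1 ζ)).1) ∧
      ∀ t ∈ (prms (F (f1 ζ)).1).filter (fun t => t.1 ∈ D ∧ t.2.1 ∉ R),
        ∃ k, Le q (t.1.cond t.2.1 ζ k) := by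
    intro ζ
    obtain ⟨q, h1, h2, h3, h4⟩ := exists_decide_all (σ := σ)
      (((prms (F (f1 ζ)).1).filter (fun t => t.1 ∈ D ∧ t.2.1 ∉ R)).image
        (fun t => (t.1, t.2.1, ζ))) (by
        intro t ht
        obtain ⟨⟨ν, β, i⟩, hu, rfl⟩ := Finset.mem_image.1 ht
        obtain ⟨hu1, hu2, hu3⟩ := Finset.mem_filter.1 hu
        have hs := mem_prms.1 hu1
        refine ⟨hDhg ν hu2, hDσ ν hu2, (hcnd ζ).ok.ls ν β i hs, ?_⟩
        exact ((hf1 ζ).2.2 β (mem_ors hs)).resolve_left hu3)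
      ((hcnd ζ).res (Bel σ)) (bd_res σ _)
    refine ⟨q, h1, h2, h3, fun t ht => ?_⟩
    exact h4 _ (Finset.mem_image_of_mem _ ht)
  choose q hq1 hq2 hq3 hq4 using hdec
  have hkk : ∀ ζ ν β, ∃ k, ∀ i, Fact.s ν β i ∈ (F (f1 ζ)).1 → ν ∈ D → β ∉ R →
      Le (q ζ) (ν.cond β ζ k) := by
    intro ζ ν β
    by_cases h : ∃ i, Fact.s ν β i ∈ (F (f1 ζ)).1 ∧ ν ∈ D ∧ β ∉ R
    · obtain ⟨i, h1, h2, h3⟩ := h
      obtain ⟨k, hk⟩ := hq4 ζ (ν, β, i) (Finset.mem_filter.2 ⟨mem_prms.2 h1, h2, h3⟩)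
      exact ⟨k, fun _ _ _ _ => hk⟩
    · exact ⟨0, fun i h1 h2 h3 => absurd ⟨i, h1, h2, h3⟩ h⟩
  choose kk hkk using hkk
  let ww : W → Nm → W → Finset W := fun ζ ν β => ν.w β ζ (kk ζ ν β)
  let ws : W → Finset W := fun ζ => (prms (F (f1 ζ)).1).biUnion (fun t => ww ζ t.1 t.2.1)
  obtain ⟨R2, U5, -, hU5, -, hR5⟩ := delta ws unb_univ
  -- the types
  let ty : W → Finset (Nm × ℕ × Finset W) := fun ζ =>
    ((prms (F (f1 ζ)).1).filter (fun t => t.1 ∈ D ∧ t.2.1 ∉ R)).image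
      (fun t => (t.1, t.2.2, ww ζ t.1 t.2.1 ∩ R2))
  obtain ⟨U6, hU65, hU6, hty⟩ := pigeon hU5 ty ((countable_finsets
      (S := {t : Nm × ℕ × Finset W | t.1 ∈ D ∧ t.2.2 ⊆ R2}) (by
        have : {t : Nm × ℕ × Finset W | t.1 ∈ D ∧ t.2.2 ⊆ R2} ⊆
            (D : Set Nm) ×ˢ ((univ : Set ℕ) ×ˢ ((R2.powerset : Finset (Finset W)) : Set _)) := by
          rintro ⟨a, b, c⟩ ⟨h1, h2⟩
          exact ⟨h1, trivial, by simpa using h2⟩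
        refine Countable.mono this ?_
        exact D.finite_toSet.countable.prod (countable_univ.prod
          (Finset.finite_toSet _).countable))).mono (by
      rintro _ ⟨ζ, -, rfl⟩ t ht
      obtain ⟨u, hu, rfl⟩ := Finset.mem_image.1 ht
      exact ⟨(Finset.mem_filter.1 hu).2.1, Finset.inter_subset_right⟩))
  -- second reindexing
  obtain ⟨f2, hf2m, hf2⟩ := choose_mono (fun ζ ξ => ξ ∈ U6 ∧ ∀ x ∈ ws ξ, x ∈ R2 ∨ ζ < x) (by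
    intro ζ γ
    have hc : (⋃ x ∈ {x : W | x ≤ ζ}, {ξ ∈ U6 | x ∉ R2 ∧ x ∈ ws ξ}).Countable := by
      refine (countable_of_bdd (γ := ζ) fun x hx => hx).biUnion fun x _ => ?_
      refine Set.Subsingleton.countable fun ξ hξ ξ' hξ' => ?_
      by_contra hne
      exact hξ.2.1 (hR5 ξ (hU65 hξ.1) ξ' (hU65 hξ'.1) hne x hξ.2.2 hξ'.2.2)
    obtain ⟨b, hb⟩ := exists_bound (hc.union (countable_singleton γ))
    obtain ⟨ξ, hξ, hbξ⟩ := hU6 b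
    refine ⟨ξ, (hb γ (Or.inr rfl)).trans hbξ, hξ, fun x hx => ?_⟩
    by_contra hcon
    push Not at hcon
    refine lt_asymm hbξ (hb ξ (Or.inl ?_))
    exact mem_biUnion (show x ∈ {x : W | x ≤ ζ} from hcon.2) ⟨hξ, hcon.1, hx⟩)
  have hord : ∀ ζ f, f ∈ (F (f1 (f2 ζ))).1 → f.ord ∈ R ∨ ζ < f.ord := by
    intro ζ f hf
    rcases (hf1 (f2 ζ)).2.2 f.ord (mem_ors hf) with h | h
    · exact Or.inl h
    · exact Or.inr ((hf2 ζ).1.trans h)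
  have hdecAt : ∀ ζ ν β i, ν ∈ D → Fact.s ν β i ∈ (F (f1 (f2 ζ))).1 → β ∉ R →
      DecAt (fun ζ => q (f2 ζ)) ζ ν β (ww (f2 ζ) ν β ∩ R2) := by
    intro ζ ν β i h1 h3 h4
    refine ⟨f2 ζ, kk (f2 ζ) ν β, (hf2 ζ).1, ?_, hkk _ ν β i h3 h1 h4, fun x hx => ?_⟩
    · exact ((hf1 (f2 ζ)).2.2 β (mem_ors h3)).resolve_left h4
    · rw [Finset.mem_inter]
      refine ⟨fun h => ⟨h, ?_⟩, fun h => h.1⟩
      have : x ∈ ws (f2 ζ) := Finset.mem_biUnion.2 ⟨(ν, β, i), mem_prms.2 h3, h⟩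
      exact ((hf2 ζ).2.2 x this).resolve_right (lt_asymm hx)
  refine ⟨σ, hστ, D, R, R2, (F (f1 ξ0)).1.sup Fact.idx + 1, fun ζ => (F (f1 (f2 ζ))).1,
    fun ζ => q (f2 ζ), fun ζ => (F (f1 (f2 ζ))).2, ⟨?_, ?_, ?_, ?_, hDhg, hDσ, ?_, ?_, ?_, ?_, ?_,
    fun ζ => hq1 _, fun ζ => hq2 _, fun ζ => hq3 _, ?_⟩, fun ζ => f1 (f2 ζ), fun ζ => ⟨rfl, rfl⟩⟩
  · exact fun ζ => hcnd _
  · exact fun ζ => (hF _).2.1
  · exact fun ζ => ((hf2 ζ).1.trans (hf1 _).1).trans (hF _).2.2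
  · intro ξ ζ hne ν h1 h2
    refine hD2 _ (hU21 (hU32 (hU43 (hU (f2 ξ))))) _ (hU21 (hU32 (hU43 (hU (f2 ζ))))) ?_ ν h1 h2
    exact fun h => hne (hf2m.injective (hf1m.injective h))
  · intro ξ ν i x _ _ h
    exact hord ξ _ h
  · intro ξ ν α i _ _ h
    exact hord ξ _ h
  · intro ξ ζ ν i x h1 _ h3 h4
    have h5 : Fact.b ν i x ∈ (F (f1 (f2 ξ))).1.filter (fun f => f ∈ TR) :=
      Finset.mem_filter.2 ⟨h4, ν, h1, x, h3, i, Or.inl rfl⟩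
    have h6 : (F (f1 (f2 ξ))).1.filter (fun f => f ∈ TR) =
      (F (f1 (f2 ζ))).1.filter (fun f => f ∈ TR) := htr _ (hU _) _ (hU _)
    rw [h6] at h5
    exact (Finset.mem_filter.1 h5).1
  · intro ξ ζ ν α i h1 _ h3 h4
    have h5 : Fact.s ν α i ∈ (F (f1 (f2 ξ))).1.filter (fun f => f ∈ TR) :=
      Finset.mem_filter.2 ⟨h4, ν, h1, α, h3, i, Or.inr rfl⟩
    have h6 : (F (f1 (f2 ξ))).1.filter (fun f => f ∈ TR) =
      (F (f1 (f2 ζ))).1.filter (fun f => f ∈ TR) := htr _ (hU _) _ (hU _)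
    rw [h6] at h5
    exact (Finset.mem_filter.1 h5).1
  · intro ξ ν i x h
    have h1 : (Fact.b ν i x).idx ≤ (F (f1 (f2 ξ))).1.sup Fact.idx := Finset.le_sup h
    have h2 : (F (f1 (f2 ξ))).1.sup Fact.idx = (F (f1 ξ0)).1.sup Fact.idx :=
      hN _ (hU43 (hU _)) _ (hU43 (hU _))
    have h3 : i ≤ (F (f1 ξ0)).1.sup Fact.idx := by rw [← h2]; exact h1
    exact Nat.lt_succ_of_le h3
  · intro ξ ν β i h1 _ h3 h4
    refine ⟨ww (f2 ξ) ν β ∩ R2, Finset.inter_subset_right, hdecAt ξ ν β i h1 h3 h4, fun ζ => ?_⟩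
    have h5 : (ν, i, ww (f2 ξ) ν β ∩ R2) ∈ ty (f2 ξ) :=
      Finset.mem_image.2 ⟨(ν, β, i), Finset.mem_filter.2 ⟨mem_prms.2 h3, h1, h4⟩, rfl⟩
    have h6 : ty (f2 ξ) = ty (f2 ζ) := hty _ (hf2 ξ).2.1 _ (hf2 ζ).2.1
    rw [h6] at h5
    obtain ⟨⟨μ, β', j⟩, hu, he⟩ := Finset.mem_image.1 h5
    obtain ⟨e1, e4⟩ := Prod.ext_iff.1 he
    obtain ⟨e2, e3⟩ := Prod.ext_iff.1 e4
    simp only at e1 e2 e3
    subst e1; subst e2
    obtain ⟨hu1, hu2, hu3⟩ := Finset.mem_filter.1 hu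
    have hs := mem_prms.1 hu1
    refine ⟨β', hs, hu3, ?_⟩
    rw [← e3]
    exact hdecAt ζ μ β' j hu2 hs hu3

end H9.PF
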