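import Pool.Agent.H9.PF.Hit

/-!
# The induction step of the hitting theorem
-/

open Set

namespace H9.PF

variable {σ τ : Ordinal.{0}} {D : Finset Nm} {R R2 : Finset W} {N : ℕ} {p p1 : W → Cd} {X : W → W}

open Classical in
theorem step (hστ : σ < τ) (d : Data σ τ D R R2 N p p1 X) (IH : HitAt σ) (g : W → W) :
    ∃ α, Lim α ∧ (∀ γ < α, g γ < α) ∧ ∃ q, Cnd q ∧ Bd τ q ∧
      ∀ q', Cnd q' → Bd τ q' → Le q' q → ∀ γ < α, ∃ ξ, γ < X ξ ∧ X ξ < α ∧
        ∃ r, Cnd r ∧ Bd τ r ∧ Le r q' ∧ Le r (p ξ) ∧ Fact.l α (X ξ) ∈ r := by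
  -- closure function
  let S : W → Set W := fun ξ => {g ξ, X ξ} ∪ ((ors (p ξ) : Finset W) : Set W)
  obtain ⟨G, hG⟩ := exists_boundfun S fun ξ =>
    ((countable_singleton _).insert _).union (Finset.countable_toSet _)
  obtain ⟨b0, hb0⟩ := exists_bound (s := ((R ∪ R2 : Finset W) : Set W)) (Finset.countable_toSet _)
  have hb0R : ∀ x ∈ R, x < b0 := fun x hx => hb0 x (by simpa using Or.inl hx)
  have hb0R2 : ∀ x ∈ R2, x < b0 := fun x hx => hb0 x (by simpa using Or.inr hx)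
  obtain ⟨α, hα, hcl, q0, hq0c, hq0b, hq0⟩ := IH (fun ξ => (p1 ξ, X ξ))
    (fun ξ => ⟨d.cnd1 ξ, d.bd1 ξ, d.lt ξ⟩) (fun γ => max (G γ) b0)
  have hclG : ∀ γ < α, G γ < α := fun γ hγ => (le_max_left _ _).trans_lt (hcl γ hγ)
  have hb0α : b0 < α := by
    obtain ⟨γ, hγ⟩ := hα.1
    exact (le_max_right _ _).trans_lt (hcl γ hγ)
  have hXG : ∀ ξ γ, ξ ≤ γ → X ξ < G γ := fun ξ γ h => hG γ ξ h _ (Or.inl (Or.inr rfl))
  have ho : ∀ ξ < α, ∀ f ∈ p ξ, f.ord < α := fun ξ hξ f hf =>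
    (hG ξ ξ le_rfl _ (Or.inr (mem_ors hf))).trans (hclG ξ hξ)
  refine ⟨α, hα, fun γ hγ => (hG γ γ le_rfl _ (Or.inl (Or.inl rfl))).trans (hclG γ hγ), ?_⟩
  -- the master condition
  obtain ⟨ξ0, hξ01, hξ02, q1, hq1c, hq1b, hq10, hq1p, -⟩ :=
    hq0 q0 hq0c hq0b (Le.refl q0) (G b0) (hclG b0 hb0α)
  have hbξ0 : b0 < ξ0 := by
    by_contra h
    exact lt_asymm hξ01 (hXG ξ0 b0 (not_lt.1 h))
  have hξ0α : ξ0 < α := (d.lt ξ0).trans hξ02
  have hA : Closed (Bel σ) := closed_bel σ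
  have hq1r : Le q1 (res (Bel σ) (p ξ0)) := hq1p.trans (d.le1 ξ0)
  obtain ⟨hu1, hu2⟩ := hq1r.union hq1b
  have huc : Cnd (q1 ∪ p ξ0) := hq1c.union (d.cnd ξ0) hq1r.sub hq1b
  let Sx : Cd := (D.filter (fun ν => rk ν = σ)).image (fun ν => Fact.s ν α N)
  have hSx : ∀ f, f ∈ Sx ↔ ∃ ν ∈ D, rk ν = σ ∧ f = Fact.s ν α N := by
    intro f
    constructor
    · intro h
      obtain ⟨ν, hν, rfl⟩ := Finset.mem_image.1 h
      obtain ⟨h1, h2⟩ := Finset.mem_filter.1 hν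
      exact ⟨ν, h1, h2, rfl⟩
    · rintro ⟨ν, h1, h2, rfl⟩
      exact Finset.mem_image_of_mem _ (Finset.mem_filter.2 ⟨h1, h2⟩)
  have hSno : ∀ ν i, ν ∈ D → rk ν = σ → Fact.s ν α i ∉ q1 ∪ p ξ0 := by
    intro ν i h1 h2 h3
    rcases Finset.mem_union.1 h3 with h3 | h3
    · have : rk ν < σ := hq1b _ h3
      exact absurd h2 this.ne
    · exact lt_irrefl α (ho ξ0 hξ0α _ h3)
  set q : Cd := (q1 ∪ p ξ0) ∪ Sx with hq
  have hqc : Cnd q := by
    refine ⟨⟨?_, ?_, ?_, ?_⟩, ?_⟩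
    · intro β x y hx hy
      rcases Finset.mem_union.1 hx with hx | hx
      · rcases Finset.mem_union.1 hy with hy | hy
        · exact huc.ok.fl β x y hx hy
        · obtain ⟨_, _, _, h⟩ := (hSx _).1 hy
          exact absurd h (by simp)
      · obtain ⟨_, _, _, h⟩ := (hSx _).1 hx
        exact absurd h (by simp)
    · intro ν β i j hx hy
      rcases Finset.mem_union.1 hx with ux | ux
      · rcases Finset.mem_union.1 hy with uy | uy
        · exact huc.ok.fs ν β i j ux uy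
        · obtain ⟨μ, h1, h2, h⟩ := (hSx _).1 uy
          rw [Fact.s.injEq] at h
          obtain ⟨rfl, rfl, rfl⟩ := h
          exact absurd ux (hSno ν i h1 h2)
      · obtain ⟨μ, h1, h2, h⟩ := (hSx _).1 ux
        rw [Fact.s.injEq] at h
        obtain ⟨rfl, rfl, rfl⟩ := h
        rcases Finset.mem_union.1 hy with uy | uy
        · exact absurd uy (hSno ν j h1 h2)
        · obtain ⟨_, _, _, h⟩ := (hSx _).1 uy
          rw [Fact.s.injEq] at h
          exact h.2.2.symm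
    · intro β x hx
      rcases Finset.mem_union.1 hx with hx | hx
      · exact huc.ok.ll β x hx
      · obtain ⟨_, _, _, h⟩ := (hSx _).1 hx
        exact absurd h (by simp)
    · intro ν β i hx
      rcases Finset.mem_union.1 hx with hx | hx
      · exact huc.ok.ls ν β i hx
      · obtain ⟨μ, h1, h2, h⟩ := (hSx _).1 hx
        rw [Fact.s.injEq] at h
        obtain ⟨rfl, rfl, rfl⟩ := h
        exact hα
    · intro f hf
      rcases Finset.mem_union.1 hf with hf | hf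
      · exact huc.hg f hf
      · obtain ⟨μ, h1, h2, rfl⟩ := (hSx _).1 hf
        exact d.Dhg μ h1
  have hqb : Bd τ q := by
    intro f hf
    rcases Finset.mem_union.1 hf with hf | hf
    · rcases Finset.mem_union.1 hf with hf | hf
      · exact (hq1b.mono hστ.le) f hf
      · exact d.bd ξ0 f hf
    · obtain ⟨μ, h1, h2, rfl⟩ := (hSx _).1 hf
      exact lt_of_le_of_lt h2.le hστ
  have hqu : Le q (q1 ∪ p ξ0) := by
    refine Le.of_no_new Finset.subset_union_left fun ν i x hx => ?_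
    rcases Finset.mem_union.1 hx with hx | hx
    · exact hx
    · obtain ⟨_, _, _, h⟩ := (hSx _).1 hx
      exact absurd h (by simp)
  have hqq1 : Le q q1 := hqu.trans hu1
  have hqp : Le q (p ξ0) := hqu.trans hu2
  refine ⟨q, hqc, hqb, ?_⟩
  intro q' hq'c hq'b hq'q γ hγ
  have hq'p : Le q' (p ξ0) := hq'q.trans hqp
  have hq'q1 : Le q' q1 := hq'q.trans hqq1
  have hq's : Le (res (Bel σ) q') q1 := by
    have := hq'q1.res hA
    rwa [res_eq hq1b] at this
  -- decide the ladders of the promises at levels above `α`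
  let T : Finset (Nm × W × W) := ((prms q').filter
    (fun t => t.1 ∈ D ∧ rk t.1 = σ ∧ α < t.2.1)).image (fun t => (t.1, t.2.1, α))
  have hT : ∀ ν β i, Fact.s ν β i ∈ q' → ν ∈ D → rk ν = σ → α < β → (ν, β, α) ∈ T := by
    intro ν β i h1 h2 h3 h4
    exact Finset.mem_image.2 ⟨(ν, β, i), Finset.mem_filter.2 ⟨mem_prms.2 h1, h2, h3, h4⟩, rfl⟩
  obtain ⟨q2, hq2c, hq2b, hq2s, hq2T⟩ := exists_decide_all (σ := σ) T (by
    intro t ht
    obtain ⟨⟨ν, β, i⟩, hu, rfl⟩ := Finset.mem_image.1 ht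
    obtain ⟨hu1, hu2, hu3, hu4⟩ := Finset.mem_filter.1 hu
    exact ⟨d.Dhg ν hu2, hu3.le, hq'c.ok.ls ν β i (mem_prms.1 hu1), hu4⟩)
    (hq'c.res (Bel σ)) (bd_res σ q')
  have hkk : ∀ t : Nm × W × W, ∃ k, t ∈ T → Le q2 (t.1.cond t.2.1 t.2.2 k) := by
    intro t
    by_cases h : t ∈ T
    · obtain ⟨k, hk⟩ := hq2T t h
      exact ⟨k, fun _ => hk⟩
    · exact ⟨0, fun h' => absurd h' h⟩
  choose kk hkk using hkk
  have hex : ∀ ν : Nm, ∃ ζ, ∀ ζ', ν ∉ D → ν ∈ nms (p ζ') → ζ' = ζ := by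
    intro ν
    by_cases hh : ∃ ζ, ν ∉ D ∧ ν ∈ nms (p ζ)
    · obtain ⟨ζ, h4, h5⟩ := hh
      refine ⟨ζ, fun ζ' _ h6 => ?_⟩
      by_contra hne
      exact h4 (d.dis ζ ζ' (Ne.symm hne) ν h5 h6)
    · exact ⟨α, fun ζ' h5 h6 => absurd ⟨ζ', h5, h6⟩ hh⟩
  choose e he using hex
  obtain ⟨γ1, hγ1, hγ1'⟩ := hα.bound (ors q' ∪ (nms q').image e ∪
    T.biUnion (fun t => t.1.w t.2.1 t.2.2 (kk t)))
  have hγo : ∀ f ∈ q', f.ord < α → f.ord < γ1 := fun f hf h => hγ1' _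
    (Finset.mem_union_left _ (Finset.mem_union_left _ (mem_ors hf))) h
  have hγe : ∀ ν ∈ nms q', e ν < α → e ν < γ1 := fun ν hν h => hγ1' _
    (Finset.mem_union_left _ (Finset.mem_union_right _ (Finset.mem_image_of_mem _ hν))) h
  have hγw : ∀ t ∈ T, ∀ x ∈ t.1.w t.2.1 t.2.2 (kk t), x < α → x < γ1 := fun t ht x hx h =>
    hγ1' _ (Finset.mem_union_right _ (Finset.mem_biUnion.2 ⟨t, ht, hx⟩)) h
  obtain ⟨ξ, hξ1, hξ2, q3, hq3c, hq3b, hq32, hq3p, hq3l⟩ :=
    hq0 q2 hq2c hq2b ((hq2s.trans hq's).trans hq10) (max γ (G γ1)) (max_lt hγ (hclG γ1 hγ1))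
  have hξ2 : X ξ < α := hξ2
  have hγ1ξ : γ1 < ξ := by
    by_contra h
    exact absurd ((le_max_right γ (G γ1)).trans_lt hξ1) (lt_asymm (hXG ξ γ1 (not_lt.1 h)))
  have hξα : ξ < α := (d.lt ξ).trans hξ2
  -- facts of low rank
  have hlow1 : ∀ f ∈ q', f.In (Bel σ) → f ∈ q3 := fun f hf h =>
    hq32.sub (hq2s.sub (mem_res.2 ⟨hf, h⟩))
  have hlow2 : ∀ f ∈ p ξ, f.In (Bel σ) → f ∈ q3 := fun f hf h =>
    hq3p.sub ((d.le1 ξ).sub (mem_res.2 ⟨hf, h⟩))
  set r : Cd := q3 ∪ (q' ∪ p ξ) with hr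
  have hmem : ∀ f, f ∈ r ↔ f ∈ q3 ∨ f ∈ q' ∨ f ∈ p ξ := fun f => by
    rw [hr, Finset.mem_union, Finset.mem_union]
  have hlow : ∀ f ∈ r, f.In (Bel σ) → f ∈ q3 := by
    intro f hf h
    rcases (hmem f).1 hf with hf | hf | hf
    · exact hf
    · exact hlow1 f hf h
    · exact hlow2 f hf h
  -- common names of rank at least `σ`
  have htop : ∀ ν, ν ∈ nms q' → ν ∈ nms (p ξ) → ¬ rk ν < σ → ν ∈ D ∧ rk ν = σ := by
    intro ν h1 h2 h3
    have hνD : ν ∈ D := by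
      by_contra h
      have h4 : ξ = e ν := he ν ξ h h2
      have h5 : e ν < γ1 := hγe ν h1 (h4 ▸ hξα)
      rw [← h4] at h5
      exact lt_asymm hγ1ξ h5
    exact ⟨hνD, le_antisymm (d.Dle ν hνD) (not_lt.1 h3)⟩
  have hR3 : Le r q3 := by
    refine Le.intro (fun f hf => (hmem f).2 (Or.inl hf)) fun ν β i x h1 h2 h3 _ => ?_
    exact absurd (hlow _ h2 (hq3b _ h1 : rk ν < σ)) h3
  -- promises
  have hprm : ∀ ν β i j, Fact.s ν β i ∈ q' → Fact.s ν β j ∈ p ξ → ¬ rk ν < σ → i = j := by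
    intro ν β i j h1 h2 h3
    obtain ⟨hD, hrk⟩ := htop ν (mem_nms_s h1) (mem_nms_s h2) h3
    have h4 : β < α := ho ξ hξα _ h2
    have h5 : β < γ1 := hγo _ h1 h4
    have h6 : β ∈ R := (d.ords ξ ν β j hD hrk h2).resolve_right
      (lt_asymm (h5.trans hγ1ξ))
    exact hq'c.ok.fs ν β i j h1 (hq'p.sub (d.trs ξ ξ0 ν β j hD hrk h6 h2))
  have hrc : Cnd r := by
    refine ⟨⟨?_, ?_, ?_, ?_⟩, ?_⟩
    · intro β x y hx hy
      exact hq3c.ok.fl β x y (hlow _ hx trivial) (hlow _ hy trivial)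
    · intro ν β i j hx hy
      by_cases hrk : rk ν < σ
      · exact hq3c.ok.fs ν β i j (hlow _ hx hrk) (hlow _ hy hrk)
      · rcases (hmem _).1 hx with hx | hx | hx
        · exact absurd (hq3b _ hx : rk ν < σ) hrk
        · rcases (hmem _).1 hy with hy | hy | hy
          · exact absurd (hq3b _ hy : rk ν < σ) hrk
          · exact hq'c.ok.fs ν β i j hx hy
          · exact hprm ν β i j hx hy hrk
        · rcases (hmem _).1 hy with hy | hy | hy
          · exact absurd (hq3b _ hy : rk ν < σ) hrk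
          · exact (hprm ν β j i hy hx hrk).symm
          · exact (d.cnd ξ).ok.fs ν β i j hx hy
    · intro β x hx
      exact hq3c.ok.ll β x (hlow _ hx trivial)
    · intro ν β i hx
      rcases (hmem _).1 hx with hx | hx | hx
      · exact hq3c.ok.ls ν β i hx
      · exact hq'c.ok.ls ν β i hx
      · exact (d.cnd ξ).ok.ls ν β i hx
    · intro f hf
      rcases (hmem _).1 hf with hf | hf | hf
      · exact hq3c.hg f hf
      · exact hq'c.hg f hf
      · exact (d.cnd ξ).hg f hf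
  have hrb : Bd τ r := by
    intro f hf
    rcases (hmem _).1 hf with hf | hf | hf
    · exact (hq3b.mono hστ.le) f hf
    · exact hq'b f hf
    · exact d.bd ξ f hf
  -- `r` extends `q'`
  have hRq' : Le r q' := by
    refine Le.intro (fun f hf => (hmem f).2 (Or.inr (Or.inl hf))) fun ν β i x h1 h2 h3 h4 => ?_
    by_cases hrk : rk ν < σ
    · have h5 : Fact.b ν i x ∈ q3 := hlow _ h2 hrk
      have h6 : Le q3 (res (Bel σ) q') := hq32.trans hq2s
      exact (h6.out (mem_res.2 ⟨h1, hrk⟩) h5 (fun h => h3 (mem_res.1 h).1) h4).mono hR3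
    · have h5 : Fact.b ν i x ∈ p ξ := by
        rcases (hmem _).1 h2 with h | h | h
        · exact absurd (hq3b _ h : rk ν < σ) hrk
        · exact absurd h h3
        · exact h
      obtain ⟨hD, hrk'⟩ := htop ν (mem_nms_s h1) (mem_nms_b h5) hrk
      have hξx : ξ < x := by
        refine (d.ordb ξ ν i x hD hrk' h5).resolve_left fun hxR => ?_
        exact h3 (hq'p.sub (d.trb ξ ξ0 ν i x hD hrk' hxR h5))
      have hxα : x < α := ho ξ hξα _ h5
      have hαβ : α ≤ β := by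
        by_contra h
        have h6 : β < γ1 := hγo _ h1 (not_le.1 h)
        exact absurd (h4.trans h6) (lt_asymm (hγ1ξ.trans hξx))
      rcases hαβ.eq_or_lt with h | h
      · subst h
        have h6 : Fact.s ν α N ∈ q' := hq'q.sub (Finset.mem_union_right _
          ((hSx _).2 ⟨ν, hD, hrk', rfl⟩))
        have h7 : i = N := hq'c.ok.fs ν α i N h1 h6
        exact absurd (d.idx ξ ν i x h5) (by omega)
      · have h6 := hT ν β i h1 hD hrk' h
        refine ⟨α, kk (ν, β, α), hxα, h, fun hx => ?_, ?_⟩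
        · exact lt_asymm (hγ1ξ.trans hξx) (hγw _ h6 x hx hxα)
        · exact (hR3.trans hq32).trans (hkk _ h6)
  -- `r` extends `p ξ`
  have hRp : Le r (p ξ) := by
    refine Le.intro (fun f hf => (hmem f).2 (Or.inr (Or.inr hf))) fun ν β i x h1 h2 h3 h4 => ?_
    by_cases hrk : rk ν < σ
    · have h5 : Fact.b ν i x ∈ q3 := hlow _ h2 hrk
      have h6 : Le q3 (res (Bel σ) (p ξ)) := hq3p.trans (d.le1 ξ)
      exact (h6.out (mem_res.2 ⟨h1, hrk⟩) h5 (fun h => h3 (mem_res.1 h).1) h4).mono hR3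
    · have h5 : Fact.b ν i x ∈ q' := by
        rcases (hmem _).1 h2 with h | h | h
        · exact absurd (hq3b _ h : rk ν < σ) hrk
        · exact h
        · exact absurd h h3
      obtain ⟨hD, hrk'⟩ := htop ν (mem_nms_b h5) (mem_nms_s h1) hrk
      have hβα : β < α := ho ξ hξα _ h1
      have hxγ : x < γ1 := hγo _ h5 (h4.trans hβα)
      have hxξ : x < ξ := hxγ.trans hγ1ξ
      by_cases hβR : β ∈ R
      · have h6 : Fact.s ν β i ∈ p ξ0 := d.trs ξ ξ0 ν β i hD hrk' hβR h1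
        have h7 : Fact.b ν i x ∉ p ξ0 := by
          intro h
          rcases d.ordb ξ0 ν i x hD hrk' h with h8 | h8
          · exact h3 (d.trb ξ0 ξ ν i x hD hrk' h8 h)
          · exact absurd ((h8.trans h4).trans (hb0R β hβR)) (lt_asymm hbξ0)
        exact (hq'p.out h6 h5 h7 h4).mono hRq'
      · obtain ⟨v, hv, ⟨η, k, k1, k2, k3, k4⟩, hv'⟩ := d.dec ξ ν β i hD hrk' h1 hβR
        by_cases hx : x ∈ ν.w β η k
        · exfalso
          have hxv : x ∈ v := (k4 x hxξ).1 hx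
          have hxb : x < b0 := hb0R2 x (hv hxv)
          obtain ⟨β', g1, -, η', k', g2, g3, g4, g5⟩ := hv' ξ0
          have hx' : x ∈ ν.w β' η' k' := (g5 x (hxb.trans hbξ0)).2 hxv
          have h7 : Fact.b ν i x ∉ p ξ0 := by
            intro h
            rcases d.ordb ξ0 ν i x hD hrk' h with h8 | h8
            · exact h3 (d.trb ξ0 ξ ν i x hD hrk' h8 h)
            · exact absurd (h8.trans hxb) (lt_asymm hbξ0)
          have hxβ : x < β' := (hxb.trans hbξ0).trans (g2.trans g3)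
          obtain ⟨η'', k'', l1, l2, l3, l4⟩ := hq'p.out g1 h5 h7 hxβ
          have hLim : Lim β' := (d.cnd ξ0).ok.ls ν β' i g1
          have h8 : Le q' (ν.cond β' η' k') := (hq'q1.trans hq1p).trans g4
          exact l3 ((consist (d.Dhg ν hD) hLim g3 l2 hq'c h8 l4
            ((hxb.trans hbξ0).trans g2) l1).1 hx')
        · exact ⟨η, k, hxξ.trans k1, k2, hx, (hR3.trans hq3p).trans k3⟩
  exact ⟨ξ, (le_max_left _ _).trans_lt hξ1, hξ2, r, hrc, hrb, hRq', hRp, (hmem _).2 (Or.inl hq3l)⟩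

/-- **The hitting theorem.** -/
theorem hit_all (τ : Ordinal.{0}) : HitAt τ := by
  induction τ using WellFoundedLT.induction with
  | ind τ ih =>
    rcases eq_or_ne τ 0 with h0 | h0
    · subst h0; exact hit_zero
    · intro F hF g
      obtain ⟨σ, hσ, D, R, R2, N, p, p1, X, d, f, hf⟩ := prep (pos_iff_ne_zero.2 h0) F hF
      obtain ⟨α, h1, h2, q, h3, h4, h5⟩ := step hσ d (ih σ hσ) g
      refine ⟨α, h1, h2, q, h3, h4, fun q' g1 g2 g3 γ hγ => ?_⟩
      obtain ⟨ξ, k1, k2, r, k3, k4, k5, k6, k7⟩ := h5 q' g1 g2 g3 γ hγ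
      rw [(hf ξ).2] at k1 k2 k7
      rw [(hf ξ).1] at k6
      exact ⟨f ξ, k1, k2, r, k3, k4, k5, k6, k7⟩

end H9.PF
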